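import Pool.Agent.Lib.MP_2c6a5a_lc.U.Univ

/-! Closure properties of NP with an oracle, a universal relation, and proof systems. -/

namespace Pool.Agent.Lib.MP_2c6a5a_lc.U

open Pool.Agent.Lib.MP_8a52c3_lc.Orc Function List

variable {A : List Bool → Bool} {n : ℕ} {g h : St → L} {R S : L → L → Prop} {F : L → L}

/-- polynomial-time relations -/
def DR (A : List Bool → Bool) (R : L → L → Prop) : Prop := PD A 2 fun σ => R (σ 0) (σ 1)

theorem DR.app (hR : DR A R) (hg : PF A n g) (hh : PF A n h) : PD A n fun σ => R (g σ) (h σ) := by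
  obtain ⟨t, ht, e⟩ := hR
  have h2 : FP2 A fun x y => t fun i => if i = 0 then x else if i = 1 then y else [] := ht.out
  exact ((PF.app2 h2 hg hh).eq (PF.const [true])).of_iff fun σ => by rw [← e]; simp

theorem fp1_len (hF : FP1 A F) : ∃ k, ∀ x, (F x).length ≤ (x.length + 2) ^ k :=
  let ⟨k, hk⟩ := (PF.app hF (PF.v0 (n := 0))).len
  ⟨k, fun x => by simpa [sz] using hk fun _ => x⟩

theorem npRel_elim (hS : NPRel A S) :
    DR A S ∧ ∃ k, ∀ x y, S x y → y.length ≤ (x.length + 2) ^ k := by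
  obtain ⟨G, k, hG, e⟩ := hS
  obtain ⟨j, hj⟩ := (Pol.id.pow k).add (Pol.const k)
  refine ⟨((PF.v1.le ((PF.v0.pw k).append (PF.const (un k)))).and
    ((PF.app2 hG PF.v0 PF.v1).eq (PF.const [true]))).of_iff fun σ => ?_,
    j, fun x y h => ((e x y).1 h).1.trans (hj _)⟩
  simp [e]

theorem npRel_intro (hR : DR A R) {p : ℕ → ℕ} (hp : Pol p)
    (hb : ∀ x y, R x y → y.length ≤ p x.length) : NPRel A R := by
  obtain ⟨t, ht, e⟩ := hR
  obtain ⟨k, hk⟩ := hp.clock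
  refine ⟨fun x y => t fun i => if i = 0 then x else if i = 1 then y else [], k, ht.out,
    fun x y => ?_⟩
  rw [← e]
  exact ⟨fun h => ⟨(hb x y h).trans (hk _), h⟩, fun h => h.2⟩

theorem pol2 (k : ℕ) : Pol fun s => (s + 2) ^ k := (Pol.id.add (Pol.const 2)).pow k

theorem NPRel.pre (hS : NPRel A S) (hF : FP1 A F) : NPRel A fun x y => S (F x) y := by
  obtain ⟨h1, k, hk⟩ := npRel_elim hS
  obtain ⟨j, hj⟩ := fp1_len hF
  exact npRel_intro (h1.app (PF.app hF PF.v0) PF.v1) (((pol2 j).add (Pol.const 2)).pow k)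
    fun x y h => (hk _ _ h).trans (Nat.pow_le_pow_left (Nat.add_le_add_right (hj x) 2) k)

theorem NPRel.and (hS : NPRel A S) (hR : DR A R) : NPRel A fun x y => S x y ∧ R x y :=
  let ⟨h1, k, hk⟩ := npRel_elim hS
  npRel_intro (PD.and h1 hR) (pol2 k) fun x y h => hk x y h.1

theorem inNP_ex (hS : NPRel A S) : InNP A {x | ∃ y, S x y} := ⟨S, hS, fun _ => Iff.rfl⟩

variable {B C : Set L}

theorem InNP.pre (hB : InNP A B) (hF : FP1 A F) : InNP A {x | F x ∈ B} :=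
  let ⟨_, hS, e⟩ := hB
  ⟨_, NPRel.pre hS hF, fun x => e (F x)⟩

theorem inNP_dec {P : L → Prop} (hP : PD A 2 fun σ => P (σ 0)) : InNP A {x | P x} :=
  ⟨fun x y => P x ∧ y = [], npRel_intro (hP.and (PF.v1.eq PF.nil)) (Pol.const 0)
    fun _ _ h => by simp [h.2], fun x => by simp⟩

theorem InNP.union (hB : InNP A B) (hC : InNP A C) : InNP A (B ∪ C) := by
  obtain ⟨S, hS, e⟩ := hB
  obtain ⟨T, hT, e'⟩ := hC
  obtain ⟨h1, k, hk⟩ := npRel_elim hS
  obtain ⟨h2, j, hj⟩ := npRel_elim hT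
  refine ⟨fun x y => S x y ∨ T x y, npRel_intro (PD.or h1 h2) ((pol2 k).add (pol2 j))
    fun x y h => h.elim (fun h => le_add_right (hk x y h)) fun h => le_add_left (hj x y h),
    fun x => ?_⟩
  simp [e, e', exists_or]

theorem NPRel.pair {T : L → L → Prop} (hS : NPRel A S) (hT : NPRel A T) :
    NPRel A fun x y => y = pr (fst y) (snd y) ∧ S x (fst y) ∧ T x (snd y) := by
  obtain ⟨h1, k, hk⟩ := npRel_elim hS
  obtain ⟨h2, j, hj⟩ := npRel_elim hT
  refine npRel_intro ((PF.v1.eq (PF.v1.fst.pr PF.v1.snd)).and ((h1.app PF.v0 PF.v1.fst).and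
    (h2.app PF.v0 PF.v1.snd))) ((((Pol.const 2).mul (pol2 k)).add (Pol.const 1)).add (pol2 j))
    fun x y h => ?_
  have := hk _ _ h.2.1
  have := hj _ _ h.2.2
  rw [h.1, pr_length]
  omega

theorem InNP.inter (hB : InNP A B) (hC : InNP A C) : InNP A (B ∩ C) := by
  obtain ⟨S, hS, e⟩ := hB
  obtain ⟨T, hT, e'⟩ := hC
  refine ⟨_, NPRel.pair hS hT, fun x => ?_⟩
  rw [Set.mem_inter_iff, e, e']
  exact ⟨fun ⟨⟨y, h⟩, z, h'⟩ => ⟨pr y z, by simpa using ⟨h, h'⟩⟩,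
    fun ⟨_, _, h, h'⟩ => ⟨⟨_, h⟩, _, h'⟩⟩

theorem InNP.of_iff (hB : InNP A B) (e : ∀ x, x ∈ B ↔ x ∈ C) : InNP A C := Set.ext e ▸ hB

theorem inNP_univ : InNP A Set.univ :=
  InNP.of_iff (inNP_dec (P := fun x => x = x) (PF.v0.eq PF.v0)) fun _ => by simp

theorem inNP_empty : InNP A ∅ :=
  InNP.of_iff (inNP_dec (P := fun x => ¬ x = x) (PF.v0.eq PF.v0).not) fun _ => by simp

theorem code_bound {f : L → L} (hf : FP1 A f) (hF : FP1 A F) :
    ∃ G, FP1 A G ∧ ∀ x u : L, u.length ≤ (F x).length → univ A (G x) u = f u := by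
  obtain ⟨c, k, H⟩ := exists_code hf
  exact ⟨fun x => pr c (pad k (F x)), PF.fp1 ((PF.const c).pr ((PF.app hF PF.v0).pad k)),
    fun x u h => H _ _ (by rw [pad_length]; exact Nat.pow_le_pow_left (by omega) k)⟩

/-- the universal witness relation -/
def W (A : List Bool → Bool) (z y : L) : Prop :=
  y.length ≤ (fst (snd z)).length ∧ univ A (fst z) (pr (snd (snd z)) y) = [true]

theorem W.lt {z y : L} (h : W A z y) : y.length ≤ z.length :=
  h.1.trans ((fst_le _).trans (snd_le _))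

theorem npRel_W : NPRel A (W A) :=
  npRel_intro ((PF.v1.le PF.v0.snd.fst).and
    ((PF.v0.fst.univ (PF.v0.snd.snd.pr PF.v1)).eq (PF.const [true]))) Pol.id fun _ _ h => h.lt

theorem npRel_univ (hS : NPRel A S) :
    ∃ F, FP1 A F ∧ ∀ x, x.length < (F x).length ∧ ∀ y, W A (F x) y ↔ S x y := by
  obtain ⟨h1, k, hk⟩ := npRel_elim hS
  obtain ⟨t, ht, e⟩ := h1.app (PF.v0 (n := 0)).fst PF.v0.snd
  have h2 : FP1 A fun z => t fun _ => z := PF.fp1 (ht.of_eq fun σ => ht.1 _ _ fun i hi => by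
    obtain rfl : i = 0 := by omega
    rfl)
  obtain ⟨G, hG, H⟩ := code_bound h2 (PF.fp1 (F := fun x => pr x (pad k x))
    (PF.v0.pr (PF.v0.pad k)))
  refine ⟨fun x => pr (G x) (pr (pad k x) x), PF.fp1 ((PF.app hG PF.v0).pr
    ((PF.v0.pad k).pr PF.v0)), fun x => ⟨by simp; omega, fun y => ?_⟩⟩
  have h3 : y.length ≤ (pad k x).length → (univ A (G x) (pr x y) = [true] ↔ S x y) := fun h => by
    rw [H x _ (by simp only [pr_length]; omega), ← e]; simp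
  simp only [W, fst_pr, snd_pr]
  exact ⟨fun h => (h3 h.1).1 h.2, fun h =>
    have h4 : y.length ≤ (pad k x).length := by simpa using hk x y h
    ⟨h4, (h3 h4).2 h⟩⟩

/-- proof systems -/
def PS (A : List Bool → Bool) (K : Set L) (P : L → L) : Prop := FP1 A P ∧ Set.range P = K

theorem PS.mem {K : Set L} {P : L → L} (h : PS A K P) (d : L) : P d ∈ K := h.2 ▸ ⟨d, rfl⟩

theorem PS.extend {K : Set L} {P : L → L} (hP : PS A K P) (hF : FP1 A F) (hK : ∀ x, F x ∈ K) :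
    PS A K fun d => cnd d (P d) (P d.tail) (F d.tail) := by
  refine ⟨PF.fp1 (PF.v0.cnd (PF.app hP.1 PF.v0) (PF.app hP.1 PF.v0.tail) (PF.app hF PF.v0.tail)),
    Set.Subset.antisymm ?_ fun z hz => ?_⟩
  · rintro _ ⟨_ | ⟨_ | _, d⟩, rfl⟩
    exacts [hP.mem _, hP.mem _, hK _]
  · obtain ⟨d, rfl⟩ := hP.2.ge hz
    exact ⟨false :: d, rfl⟩

/-- existence of a p-optimal proof system -/
def POpt (A : List Bool → Bool) (K : Set L) : Prop :=
  ∃ P, FP1 A P ∧ Set.range P = K ∧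
    ∀ Q, FP1 A Q → Set.range Q = K → ∃ f, FP1 A f ∧ ∀ d, P (f d) = Q d

/-- existence of a length-optimal proof system -/
def LOpt (A : List Bool → Bool) (K : Set L) : Prop :=
  ∃ P, FP1 A P ∧ Set.range P = K ∧ ∀ Q, FP1 A Q → Set.range Q = K →
    ∃ k, ∀ d, ∃ π : L, π.length ≤ d.length ^ k + k ∧ P π = Q d

theorem POpt.sim {K : Set L} (h : POpt A K) : ∃ P, PS A K P ∧
    ∀ F, FP1 A F → (∀ x, F x ∈ K) → ∃ f, FP1 A f ∧ ∀ x, P (f x) = F x := by
  obtain ⟨P, h1, h2, H⟩ := h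
  refine ⟨P, ⟨h1, h2⟩, fun F hF hK => ?_⟩
  have h3 := PS.extend ⟨h1, h2⟩ hF hK
  obtain ⟨f, hf, e⟩ := H _ h3.1 h3.2
  exact ⟨fun x => f (true :: x), PF.fp1 (PF.app hf (PF.v0.cons true)), fun x => e _⟩

theorem LOpt.sim {K : Set L} (h : LOpt A K) : ∃ P, PS A K P ∧ ∀ F, FP1 A F → (∀ x, F x ∈ K) →
    ∃ k, ∀ x, ∃ π : L, π.length ≤ (pad k x).length ∧ P π = F x := by
  obtain ⟨P, h1, h2, H⟩ := h
  refine ⟨P, ⟨h1, h2⟩, fun F hF hK => ?_⟩
  have h3 := PS.extend ⟨h1, h2⟩ hF hK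
  obtain ⟨k, e⟩ := H _ h3.1 h3.2
  obtain ⟨j, hj⟩ := ((Pol.id.add (Pol.const 1)).pow k).add (Pol.const k)
  refine ⟨j, fun x => ?_⟩
  obtain ⟨π, h4, h5⟩ := e (true :: x)
  exact ⟨π, by rw [pad_length]; exact h4.trans (hj _), h5⟩

end Pool.Agent.Lib.MP_2c6a5a_lc.U
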