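import Pool.Agent.Lib.MP_2c6a5a_lc.U.NP

/-! Ten implications between the existence of complete problems and optimal proof systems,
valid relative to every oracle. -/

namespace Pool.Agent.Lib.MP_2c6a5a_lc.U

open Pool.Agent.Lib.MP_8a52c3_lc.Orc Function List

variable (A : List Bool → Bool)

/-- many-one reduction of pairs -/
def PRed (C₀ C₁ B₀ B₁ : Set L) : Prop :=
  ∃ f, FP1 A f ∧ ∀ x, (x ∈ C₀ → f x ∈ B₀) ∧ (x ∈ C₁ → f x ∈ B₁)

/-- many-one reduction of sets -/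
def MRed (C B : Set L) : Prop := ∃ f, FP1 A f ∧ ∀ x, x ∈ C ↔ f x ∈ B

/-- the class UP -/
def UPs (B : Set L) : Prop :=
  ∃ S, NPRel A S ∧ (∀ x, x ∈ B ↔ ∃ y, S x y) ∧ ∀ x y y', S x y → S x y' → y = y'

/-- there is a complete disjoint NP pair -/
def CDisjNP : Prop := ∃ B₀ B₁, InNP A B₀ ∧ InNP A B₁ ∧ Disjoint B₀ B₁ ∧
  ∀ C₀ C₁, InNP A C₀ → InNP A C₁ → Disjoint C₀ C₁ → PRed A C₀ C₁ B₀ B₁

/-- there is a complete disjoint coNP pair -/
def CDisjCo : Prop := ∃ B₀ B₁, InNP A B₀ᶜ ∧ InNP A B₁ᶜ ∧ Disjoint B₀ B₁ ∧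
  ∀ C₀ C₁, InNP A C₀ᶜ → InNP A C₁ᶜ → Disjoint C₀ C₁ → PRed A C₀ C₁ B₀ B₁

/-- all nonempty coNP sets have length-optimal proof systems -/
def OptCo : Prop := ∀ K : Set L, K.Nonempty → InNP A Kᶜ → LOpt A K

/-- all nonempty coNP sets have p-optimal proof systems -/
def POptCo : Prop := ∀ K : Set L, K.Nonempty → InNP A Kᶜ → POpt A K

/-- all nonempty NP sets have p-optimal proof systems -/
def POptNP : Prop := ∀ K : Set L, K.Nonempty → InNP A K → POpt A K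

/-- UP has a complete set -/
def CUP : Prop := ∃ B, UPs A B ∧ ∀ C, UPs A C → MRed A C B

/-- the intersection of NP and coNP has a complete set -/
def CInt : Prop := ∃ B, InNP A B ∧ InNP A Bᶜ ∧ ∀ C, InNP A C → InNP A Cᶜ → MRed A C B

/-- TFNP has a complete problem -/
def CTFNP : Prop := ∃ T, IsTFNP A T ∧ ∀ S, IsTFNP A S → Reduces A S T

variable {A}

theorem POptCo.optCo (h : POptCo A) : OptCo A := fun K h1 h2 => by
  obtain ⟨P, h3, h4, H⟩ := h K h1 h2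
  refine ⟨P, h3, h4, fun Q h5 h6 => ?_⟩
  obtain ⟨f, hf, e⟩ := H Q h5 h6
  obtain ⟨j, hj⟩ := fp1_len hf
  obtain ⟨k, hk⟩ := (pol2 j).clock
  exact ⟨k, fun d => ⟨f d, (hj d).trans (hk _), e d⟩⟩

theorem npRel_false : NPRel A fun _ _ => False :=
  npRel_intro ((PF.v0.eq PF.v0).not.of_iff fun _ => by simp) (Pol.const 0) fun _ _ => False.elim

theorem fp_fst : FP1 A fst := PF.fp1 PF.v0.fst
theorem fp_snd : FP1 A snd := PF.fp1 PF.v0.snd

theorem inNP_short {P : L → L} (hP : FP1 A P) :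
    InNP A {w | ∃ π : L, π.length ≤ (snd w).length ∧ P π = fst w} :=
  inNP_ex (npRel_intro ((PF.v1.le PF.v0.snd).and ((PF.app hP PF.v1).eq PF.v0.fst)) Pol.id
    fun _ _ h => h.1.trans (snd_le _))

theorem OptCo.cDisjNP (h : OptCo A) : CDisjNP A := by
  have hW := inNP_ex (npRel_W (A := A))
  obtain ⟨F₀, -, h0⟩ := npRel_univ (npRel_false (A := A))
  obtain ⟨P, hP, H⟩ := (h ({z | fst z ∈ {x | ∃ y, W A x y}} ∩ {z | snd z ∈ {x | ∃ y, W A x y}})ᶜ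
    ⟨pr (F₀ []) [], by simp [(h0 []).2]⟩
    (by rw [compl_compl]; exact InNP.inter (InNP.pre hW fp_fst) (InNP.pre hW fp_snd))).sim
  refine ⟨_, _, InNP.inter (inNP_short hP.1) (InNP.pre (InNP.pre hW fp_fst) fp_fst),
    InNP.inter (inNP_short hP.1) (InNP.pre (InNP.pre hW fp_snd) fp_fst),
    Set.disjoint_left.2 fun w ⟨⟨π, _, e⟩, h1⟩ ⟨_, h2⟩ => hP.mem π (e ▸ ⟨h1, h2⟩), ?_⟩
  rintro C₀ C₁ ⟨S₀, a0, e0⟩ ⟨S₁, a1, e1⟩ hd
  obtain ⟨G₀, g0, b0⟩ := npRel_univ a0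
  obtain ⟨G₁, g1, b1⟩ := npRel_univ a1
  have hF : PF A 1 fun σ => pr (G₀ (σ 0)) (G₁ (σ 0)) := (PF.app g0 PF.v0).pr (PF.app g1 PF.v0)
  obtain ⟨k, hk⟩ := H (fun x => pr (G₀ x) (G₁ x)) (PF.fp1 hF) fun x hx =>
    Set.disjoint_left.1 hd ((e0 x).2 (by simpa [(b0 x).2] using hx.1))
      ((e1 x).2 (by simpa [(b1 x).2] using hx.2))
  refine ⟨fun x => pr (pr (G₀ x) (G₁ x)) (pad k x), PF.fp1 (hF.pr (PF.v0.pad k)), fun x =>
    ⟨fun hx => ⟨by simpa using hk x, by simpa [(b0 x).2] using (e0 x).1 hx⟩,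
      fun hx => ⟨by simpa using hk x, by simpa [(b1 x).2] using (e1 x).1 hx⟩⟩⟩

theorem POptCo.cUP (h : POptCo A) : CUP A := by
  obtain ⟨F₀, -, h0⟩ := npRel_univ (npRel_false (A := A))
  obtain ⟨P, hP, H⟩ := (h {z | ∀ y y', W A z y → W A z y' → y = y'}
    ⟨F₀ [], fun y _ hy => ((h0 []).2 y).1 hy |>.elim⟩
    (InNP.of_iff (inNP_ex (NPRel.and (NPRel.pair npRel_W npRel_W) (R := fun _ y => ¬ fst y = snd y)
      (PF.v1.fst.eq PF.v1.snd).not)) fun z => by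
        simp only [Set.mem_setOf_eq, Set.mem_compl_iff, not_forall]
        exact ⟨fun ⟨y, ⟨_, h1, h2⟩, h3⟩ => ⟨_, _, h1, h2, h3⟩,
          fun ⟨y, y', h1, h2, h3⟩ => ⟨pr y y', by simpa using ⟨⟨h1, h2⟩, h3⟩⟩⟩)).sim
  refine ⟨{d | ∃ y, W A (P d) y}, ⟨_, NPRel.pre npRel_W hP.1, fun _ => Iff.rfl, hP.mem⟩, ?_⟩
  rintro C ⟨S, a, e, u⟩
  obtain ⟨G, g, b⟩ := npRel_univ a
  obtain ⟨f, hf, e'⟩ := H G g fun x y y' h1 h2 => u x y y' (((b x).2 y).1 h1) (((b x).2 y').1 h2)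
  exact ⟨f, hf, fun x => by simp [e, e', (b x).2]⟩

theorem npRel_nil : NPRel A fun _ y => y = [] :=
  npRel_intro (PF.v1.eq PF.nil) (Pol.const 0) fun _ _ h => by simp [h]

theorem POptNP.cTFNP (h : POptNP A) : CTFNP A := by
  obtain ⟨F₀, -, h0⟩ := npRel_univ (npRel_nil (A := A))
  obtain ⟨P, hP, H⟩ := (h {x | ∃ y, W A x y} ⟨F₀ [], [], ((h0 []).2 _).2 rfl⟩
    (inNP_ex npRel_W)).sim
  refine ⟨fun d y => W A (P d) y, ⟨NPRel.pre npRel_W hP.1, hP.mem⟩, fun S ⟨a, u⟩ => ?_⟩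
  obtain ⟨G, g, b⟩ := npRel_univ a
  obtain ⟨f, hf, e⟩ := H G g fun x => (u x).imp fun y hy => ((b x).2 y).2 hy
  exact ⟨f, fun _ y => y, hf, PF.fp2 PF.v1, fun x y hy => ((b x).2 y).1 (e x ▸ hy)⟩

/-- the second argument of a reduction, run by the universal function -/
theorem code_red {T : L → L → Prop} (hT : NPRel A T) {f : L → L} (hf : FP1 A f) {g : L → L → L}
    (hg : FP2 A g) : ∃ G, FP1 A G ∧ ∀ x y, T (f x) y → univ A (G x) (pr x y) = g x y := by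
  obtain ⟨-, k, hk⟩ := npRel_elim hT
  obtain ⟨G, hG, H⟩ := code_bound (PF.fp1 (F := fun z => g (fst z) (snd z))
    (PF.app2 hg PF.v0.fst PF.v0.snd)) (PF.fp1 (F := fun x => pr x (pad k (f x)))
    (PF.v0.pr ((PF.app hf PF.v0).pad k)))
  refine ⟨G, hG, fun x y h => ?_⟩
  rw [H x _ (by have := hk _ _ h; simp; omega), fst_pr, snd_pr]

theorem CTFNP.cDisjCo (h : CTFNP A) : CDisjCo A := by
  obtain ⟨T, ⟨hT, tot⟩, H⟩ := h
  have h1 : NPRel A fun z y => T (snd (snd z)) y := NPRel.pre hT (PF.fp1 PF.v0.snd.snd)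
  have h2 : DR A fun z y => (univ A (fst z) (pr (fst (snd z)) y)).take [true].length = [true] :=
    ((PF.const [true]).take (PF.v0.fst.univ (PF.v0.snd.fst.pr PF.v1))).eq (PF.const [true])
  have h2' : DR A fun z y =>
      ¬ (univ A (fst z) (pr (fst (snd z)) y)).take [true].length = [true] := PD.not h2
  have h5 := inNP_ex (NPRel.and h1 h2')
  have h6 := inNP_ex (NPRel.and h1 h2)
  rw [← compl_compl {x | ∃ y, _}] at h5 h6
  refine ⟨_, _, h5, h6, Set.disjoint_left.2 fun z h3 h4 => ?_, ?_⟩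
  · obtain ⟨y, hy⟩ := tot (snd (snd z))
    exact h3 ⟨y, hy, fun c => h4 ⟨y, hy, c⟩⟩
  rintro C₀ C₁ ⟨S₀, a0, e0⟩ ⟨S₁, a1, e1⟩ hd
  obtain ⟨d0, k0, l0⟩ := npRel_elim a0
  obtain ⟨d1, k1, l1⟩ := npRel_elim a1
  obtain ⟨f, g, hf, hg, e⟩ := H (fun x y => (y = false :: y.tail ∧ S₀ x y.tail) ∨
    (y = true :: y.tail ∧ S₁ x y.tail)) ⟨npRel_intro
      (((PF.v1.eq (PF.v1.tail.cons false)).and (d0.app PF.v0 PF.v1.tail)).or
        ((PF.v1.eq (PF.v1.tail.cons true)).and (d1.app PF.v0 PF.v1.tail)))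
      (((pol2 k0).add (pol2 k1)).add (Pol.const 1)) fun x y h => by
        rcases h with ⟨h, h'⟩ | ⟨h, h'⟩
        · have := l0 _ _ h'; rw [h, length_cons]; omega
        · have := l1 _ _ h'; rw [h, length_cons]; omega, fun x => by
      by_cases c : x ∈ C₀
      · obtain ⟨y, hy⟩ := (e1 x).1 (Set.disjoint_left.1 hd c)
        exact ⟨true :: y, Or.inr ⟨rfl, hy⟩⟩
      · obtain ⟨y, hy⟩ := (e0 x).1 c
        exact ⟨false :: y, Or.inl ⟨rfl, hy⟩⟩⟩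
  obtain ⟨G, hG, u⟩ := code_red hT hf hg
  refine ⟨fun x => pr (G x) (pr x (f x)), PF.fp1 ((PF.app hG PF.v0).pr
    (PF.v0.pr (PF.app hf PF.v0))), fun x => ⟨fun hx ⟨y, h3, h4⟩ => ?_, fun hx ⟨y, h3, h4⟩ => ?_⟩⟩
  all_goals
    simp only [fst_pr, snd_pr] at h3 h4
    rw [u x y h3] at h4
    rcases e x y h3 with ⟨h, h'⟩ | ⟨h, h'⟩
  · exact (e0 x).2 ⟨_, h'⟩ hx
  · exact h4 (by rw [h]; rfl)
  · rw [h] at h4; simp at h4
  · exact (e1 x).2 ⟨_, h'⟩ hx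

theorem OptCo.pOptCo (h : OptCo A) (h' : POptNP A) : POptCo A := fun K h1 h2 => by
  obtain ⟨P, hP, H⟩ := (h K h1 h2).sim
  obtain ⟨P', hP', H'⟩ := (h' {w | ∃ π : L, π.length ≤ (snd w).length ∧ P π = fst w}
    ⟨pr (P []) [], [], by simp⟩ (inNP_short hP.1)).sim
  refine ⟨fun d => fst (P' d), PF.fp1 (PF.app hP'.1 PF.v0).fst,
    Set.Subset.antisymm ?_ fun z hz => ?_, fun Q h3 h4 => ?_⟩
  · rintro _ ⟨d, rfl⟩
    obtain ⟨π, -, e⟩ := hP'.mem d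
    exact show fst (P' d) ∈ K from e ▸ hP.mem π
  · obtain ⟨π, rfl⟩ := hP.2.ge hz
    obtain ⟨d, e⟩ := hP'.2.ge (show pr (P π) π ∈ _ from ⟨π, by simp⟩)
    exact ⟨d, by simp [e]⟩
  · obtain ⟨k, hk⟩ := H Q h3 (PS.mem ⟨h3, h4⟩)
    obtain ⟨f, hf, e⟩ := H' (fun d => pr (Q d) (pad k d))
      (PF.fp1 ((PF.app h3 PF.v0).pr (PF.v0.pad k))) fun d => by simpa using hk d
    exact ⟨f, hf, fun d => by simp [e]⟩

theorem POptCo.pOptNP (h : POptCo A) (h' : CTFNP A) : POptNP A := by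
  obtain ⟨T, ⟨hT, tot⟩, H⟩ := h'
  rintro K ⟨x₀, h0⟩ ⟨R, hR, eR⟩
  let K' : Set L := {w | ∃ y, T (snd (snd (snd w))) y ∧
    ¬ R (fst (snd (snd w))) (univ A (fst w) (pr (fst (snd w)) y))}ᶜ
  have m : ∀ x ∈ K, ∃ w ∈ K', fst (snd (snd w)) = x := fun x hx => by
    obtain ⟨y, hy⟩ := (eR x).1 hx
    obtain ⟨G, -, u⟩ := code_red hT (PF.fp1 (F := fun x => x) PF.v0)
      (PF.fp2 (F := fun _ _ => y) (PF.const y))
    refine ⟨pr (G []) (pr [] (pr x [])), fun ⟨z, h1, h2⟩ => ?_, by simp⟩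
    simp only [fst_pr, snd_pr] at h1 h2
    exact h2 (by rwa [u [] z h1])
  obtain ⟨P, hP, H'⟩ := (h K' ((m x₀ h0).imp fun _ h => h.1) (by
    rw [compl_compl]
    exact inNP_ex (NPRel.and (NPRel.pre hT (PF.fp1 (F := fun w => snd (snd (snd w))) PF.v0.snd.snd.snd))
      ((npRel_elim hR).1.app PF.v0.snd.snd.fst
        (PF.v0.fst.univ (PF.v0.snd.fst.pr PF.v1))).not))).sim
  refine ⟨fun d => fst (snd (snd (P d))), PF.fp1 (PF.app hP.1 PF.v0).snd.snd.fst,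
    Set.Subset.antisymm ?_ fun z hz => ?_, fun Q h3 h4 => ?_⟩
  · rintro _ ⟨d, rfl⟩
    obtain ⟨y, hy⟩ := tot (snd (snd (snd (P d))))
    exact (eR _).2 ⟨_, by_contra fun c => hP.mem d ⟨y, hy, c⟩⟩
  · obtain ⟨w, hw, rfl⟩ := m z hz
    obtain ⟨d, rfl⟩ := hP.2.ge hw
    exact ⟨d, rfl⟩
  · obtain ⟨f, g, hf, hg, e⟩ := H _ ⟨NPRel.pre hR h3, fun d => (eR _).1 (PS.mem ⟨h3, h4⟩ d)⟩
    obtain ⟨G, hG, u⟩ := code_red hT hf hg
    obtain ⟨f', hf', e'⟩ := H' (fun d => pr (G d) (pr d (pr (Q d) (f d))))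
      (PF.fp1 ((PF.app hG PF.v0).pr (PF.v0.pr ((PF.app h3 PF.v0).pr (PF.app hf PF.v0)))))
      fun d ⟨y, h1, h2⟩ => by
        simp only [fst_pr, snd_pr] at h1 h2
        exact h2 (by rw [u d y h1]; exact e d y h1)
    exact ⟨f', hf', fun d => by simp [e']⟩

theorem cInt_of {B₀ B₁ : Set L} (hd : Disjoint B₀ B₁) (hO : POpt A (B₀ ∪ B₁))
    (hN : (InNP A B₀ ∧ InNP A B₁) ∨ (InNP A B₀ᶜ ∧ InNP A B₁ᶜ))
    (H : ∀ C, InNP A C → InNP A Cᶜ → PRed A C Cᶜ B₀ B₁) : CInt A := by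
  obtain ⟨P, hP, H'⟩ := hO.sim
  have e : ∀ d, P d ∈ B₁ ↔ P d ∉ B₀ := fun d =>
    ⟨fun h => Set.disjoint_right.1 hd h, (hP.mem d).resolve_left⟩
  refine ⟨{d | P d ∈ B₀}, ?_, ?_, fun C h1 h2 => ?_⟩
  · exact hN.elim (fun h => InNP.pre h.1 hP.1) fun h =>
      InNP.of_iff (InNP.pre h.2 hP.1) fun d => by simp [e]
  · exact hN.elim (fun h => InNP.of_iff (InNP.pre h.2 hP.1) e) fun h => InNP.pre h.1 hP.1
  · obtain ⟨f, hf, r⟩ := H C h1 h2
    obtain ⟨g, hg, e'⟩ := H' f hf fun x => (em (x ∈ C)).imp (r x).1 (r x).2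
    refine ⟨g, hg, fun x => ?_⟩
    rw [Set.mem_setOf_eq, e']
    exact ⟨(r x).1, fun h => by_contra fun c => Set.disjoint_left.1 hd h ((r x).2 c)⟩

theorem CDisjNP.cInt (h : CDisjNP A) (h' : POptNP A) : CInt A := by
  obtain ⟨B₀, B₁, h0, h1, hd, H⟩ := h
  obtain ⟨f, -, r⟩ := H _ _ inNP_univ inNP_empty (by simp)
  exact cInt_of hd (h' _ ⟨f [], Or.inl ((r []).1 trivial)⟩ (InNP.union h0 h1)) (Or.inl ⟨h0, h1⟩)
    fun C a b => H _ _ a b disjoint_compl_right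

theorem CDisjCo.cInt (h : CDisjCo A) (h' : POptCo A) : CInt A := by
  obtain ⟨B₀, B₁, h0, h1, hd, H⟩ := h
  obtain ⟨f, -, r⟩ := H Set.univ ∅ (by simpa using inNP_empty) (by simpa using inNP_univ) (by simp)
  exact cInt_of hd (h' _ ⟨f [], Or.inl ((r []).1 trivial)⟩
    (by rw [Set.compl_union]; exact InNP.inter h0 h1)) (Or.inr ⟨h0, h1⟩)
    fun C a b => H _ _ b (by rwa [compl_compl]) disjoint_compl_right

/-- bit number `|u|` of `y` followed by an end marker -/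
def bit (y u : L) : L := cnd ((y ++ [true]).drop u.length) [] [] [true]

theorem PF.bit {n : ℕ} {g h : St → L} (hg : PF A n g) (hh : PF A n h) :
    PF A n fun σ => bit (g σ) (h σ) :=
  (hh.drop (hg.append (PF.const [true]))).cnd PF.nil PF.nil (PF.const [true])

theorem bit_cases (y u : L) : bit y u = [] ∨ bit y u = [true] := by
  unfold bit
  rcases (y ++ [true]).drop u.length with _ | ⟨_ | _, _⟩ <;> simp [cnd]

theorem bit_last (y : L) : bit y (un y.length) = [true] := by simp [bit, cnd]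

theorem bit_inj {y y' : L} (h : ∀ j, j ≤ y.length ∨ j ≤ y'.length → bit y (un j) = bit y' (un j)) :
    y = y' := by
  induction y generalizing y' with
  | nil =>
    rcases y' with _ | ⟨b, y'⟩
    · rfl
    · have := h _ (Or.inr le_rfl)
      rw [bit_last] at this
      simp [bit, cnd] at this
  | cons a y ih =>
    rcases y' with _ | ⟨b, y'⟩
    · have := h _ (Or.inl le_rfl)
      rw [bit_last] at this
      simp [bit, cnd] at this
    · have h0 := h 0 (Or.inl (Nat.zero_le _))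
      rw [ih (y' := y') fun j hj => by simpa [bit] using h (j + 1) (by simpa using hj)]
      cases a <;> cases b <;> simp [bit, cnd] at h0 ⊢

theorem CDisjNP.cUP (h : CDisjNP A) (h' : POptNP A) : CUP A := by
  classical
  obtain ⟨B₀, B₁, h0, h1, hd, H⟩ := h
  obtain ⟨f₀, -, r₀⟩ := H _ _ inNP_univ inNP_empty (by simp)
  let K : Set L :=
    ({w | fst w = []} ∩ {w | snd w ∈ B₀}) ∪ ({w | fst w = [true]} ∩ {w | snd w ∈ B₁})
  have m₀ : pr [] (f₀ []) ∈ K := Or.inl (by simpa using (r₀ []).1 trivial)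
  obtain ⟨P, hP, H'⟩ := (h' K ⟨_, m₀⟩ (InNP.union
    (InNP.inter (inNP_dec (PF.v0.fst.eq PF.nil)) (InNP.pre h0 fp_snd))
    (InNP.inter (inNP_dec (PF.v0.fst.eq (PF.const _))) (InNP.pre h1 fp_snd)))).sim
  let R : L → L → Prop := fun p u =>
    P (univ A (fst (snd (snd (fst p)))) (pr (pr (fst (snd (fst p))) (snd p)) u)) =
      pr (bit (snd p) u) (univ A (snd (snd (snd (fst p)))) (pr (fst (snd (fst p))) u))
  have hR : DR A R := (PF.app hP.1 (PF.v0.fst.snd.snd.fst.univ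
    ((PF.v0.fst.snd.fst.pr PF.v0.snd).pr PF.v1))).eq ((PF.v0.snd.bit PF.v1).pr
      (PF.v0.fst.snd.snd.snd.univ (PF.v0.fst.snd.fst.pr PF.v1)))
  have hT : NPRel A fun z y => W A (fst z) y ∧
      ∀ j < (true :: fst z).length, R (pr z y) (un j) :=
    NPRel.and (NPRel.pre npRel_W fp_fst) (PD.ball hR (PF.v0.pr PF.v1) (PF.v0.fst.cons true))
  refine ⟨_, ⟨_, hT, fun _ => Iff.rfl, fun z y y' a b => bit_inj fun j hj => ?_⟩, ?_⟩
  · have hj' : j < (true :: fst z).length := by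
      have := a.1.lt
      have := b.1.lt
      rw [length_cons]; omega
    have c := Set.mem_of_eq_of_mem (a.2 j hj').symm (hP.mem _)
    have c' := Set.mem_of_eq_of_mem (b.2 j hj').symm (hP.mem _)
    simp only [K, Set.mem_union, Set.mem_inter_iff, Set.mem_setOf_eq, fst_pr, snd_pr] at c c'
    rcases c with c | c <;> rcases c' with c' | c'
    · rw [c.1, c'.1]
    · exact (Set.disjoint_left.1 hd c.2 c'.2).elim
    · exact (Set.disjoint_left.1 hd c'.2 c.2).elim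
    · rw [c.1, c'.1]
  rintro C ⟨S, a, e, u⟩
  obtain ⟨f, hf, r⟩ := H _ _
    (inNP_ex (NPRel.and (NPRel.pre a fp_fst) (R := fun v y => bit y (snd v) = [])
      ((PF.v1.bit PF.v0.snd).eq PF.nil)))
    (inNP_ex (NPRel.and (NPRel.pre a fp_fst) (R := fun v y => bit y (snd v) = [true])
      ((PF.v1.bit PF.v0.snd).eq (PF.const _))))
    (Set.disjoint_left.2 fun v ⟨y, h2, h3⟩ ⟨y', h4, h5⟩ => by
      rw [← u _ _ _ h2 h4, h3] at h5
      cases h5)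
  obtain ⟨g, hg, e'⟩ := H' (fun v => if S (fst (fst v)) (snd (fst v)) then
      pr (bit (snd (fst v)) (snd v)) (f (pr (fst (fst v)) (snd v))) else pr [] (f₀ []))
    (PF.fp1 (((npRel_elim a).1.app PF.v0.fst.fst PF.v0.fst.snd).ite
      ((PF.v0.fst.snd.bit PF.v0.snd).pr (PF.app hf (PF.v0.fst.fst.pr PF.v0.snd))) (PF.const _)))
    fun v => by
      split_ifs with c
      · rcases bit_cases (snd (fst v)) (snd v) with b | b
        · exact Or.inl ⟨by simpa using b, by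
            simpa using (r (pr (fst (fst v)) (snd v))).1 ⟨_, by simpa using c, by simpa using b⟩⟩
        · exact Or.inr ⟨by simpa using b, by
            simpa using (r (pr (fst (fst v)) (snd v))).2 ⟨_, by simpa using c, by simpa using b⟩⟩
      · exact m₀
  obtain ⟨G, hG, b⟩ := npRel_univ a
  have hB : FP1 A fun x => pr (pr x (G x)) (G x) :=
    PF.fp1 ((PF.v0.pr (PF.app hG PF.v0)).pr (PF.app hG PF.v0))
  obtain ⟨G₁, g1, u1⟩ := code_bound hg hB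
  obtain ⟨G₂, g2, u2⟩ := code_bound hf hB
  refine ⟨fun x => pr (G x) (pr x (pr (G₁ x) (G₂ x))), PF.fp1 ((PF.app hG PF.v0).pr
    (PF.v0.pr ((PF.app g1 PF.v0).pr (PF.app g2 PF.v0)))), fun x => ?_⟩
  rw [e]
  refine exists_congr fun y => ?_
  rw [fst_pr, (b x).2]
  refine ⟨fun hy => ⟨hy, fun j hj => ?_⟩, fun h => h.1⟩
  have l := (((b x).2 y).2 hy).lt
  rw [length_cons] at hj
  simp only [R, fst_pr, snd_pr]
  rw [u1 x _ (by simp; omega), u2 x _ (by simp; omega), e']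
  simp [hy]

end Pool.Agent.Lib.MP_2c6a5a_lc.U
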