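import Pool.Agent.Lib.MP_2c6a5a_lc.ClDefs
import Pool.Agent.Lib.MP_2c6a5a_lc.U.Imp

/-! The ten implications between the eight hypotheses hold relative to every oracle. -/

namespace Pool.Agent.Lib.MP_2c6a5a_lc.Cl

variable {A : List Bool → Bool}

theorem not_conn : ¬ CONN A ↔ U.OptCo A :=
  ⟨fun h K a b => by_contra fun c => h ⟨K, a, b, c⟩, fun h ⟨K, a, b, c⟩ => c (h K a b)⟩

theorem not_con : ¬ CON A ↔ U.POptCo A :=
  ⟨fun h K a b => by_contra fun c => h ⟨K, a, b, c⟩, fun h ⟨K, a, b, c⟩ => c (h K a b)⟩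

theorem not_sat : ¬ SAT A ↔ U.POptNP A :=
  ⟨fun h K a b => by_contra fun c => h ⟨K, a, b, c⟩, fun h ⟨K, a, b, c⟩ => c (h K a b)⟩

theorem not_cInt (h : HypNPcoNP A) : ¬ U.CInt A :=
  fun ⟨B, a, b, H⟩ => h ⟨B, ⟨a, b⟩, fun C c => H C c.1 c.2⟩

theorem disjNP_conn (h : DisjNP A) : CONN A := by_contra fun c => h (not_conn.1 c).cDisjNP

theorem conn_con (h : CONN A) : CON A := by_contra fun c => not_conn.2 (not_con.1 c).optCo h

theorem up_con (h : HypUP A) : CON A := by_contra fun c => h (not_con.1 c).cUP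

theorem disjCoNP_tfnp (h : DisjCoNP A) : TFNP A := fun c => h (U.CTFNP.cDisjCo c)

theorem tfnp_sat (h : TFNP A) : SAT A := by_contra fun c => h (not_sat.1 c).cTFNP

theorem con_conn_or_sat (h : CON A) : CONN A ∨ SAT A := by_contra fun c =>
  not_con.2 ((not_conn.1 (not_or.1 c).1).pOptCo (not_sat.1 (not_or.1 c).2)) h

theorem sat_con_or_tfnp (h : SAT A) : CON A ∨ TFNP A := by_contra fun c =>
  not_sat.2 ((not_con.1 (not_or.1 c).1).pOptNP (not_not.1 (not_or.1 c).2)) h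

theorem up_disjNP_or_sat (h : HypUP A) : DisjNP A ∨ SAT A := by_contra fun c =>
  h (U.CDisjNP.cUP (not_not.1 (not_or.1 c).1) (not_sat.1 (not_or.1 c).2))

theorem int_disjNP_or_sat (h : HypNPcoNP A) : DisjNP A ∨ SAT A := by_contra fun c =>
  not_cInt h (U.CDisjNP.cInt (not_not.1 (not_or.1 c).1) (not_sat.1 (not_or.1 c).2))

theorem int_con_or_disjCoNP (h : HypNPcoNP A) : CON A ∨ DisjCoNP A := by_contra fun c =>
  not_cInt h (U.CDisjCo.cInt (not_not.1 (not_or.1 c).2) (not_con.1 (not_or.1 c).1))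

theorem ten (A : List Bool → Bool) : (DisjNP A → CONN A) ∧ (CONN A → CON A) ∧ (HypUP A → CON A) ∧
    (DisjCoNP A → TFNP A) ∧ (TFNP A → SAT A) ∧ (CON A → CONN A ∨ SAT A) ∧
    (SAT A → CON A ∨ TFNP A) ∧ (HypUP A → DisjNP A ∨ SAT A) ∧
    (HypNPcoNP A → DisjNP A ∨ SAT A) ∧ (HypNPcoNP A → CON A ∨ DisjCoNP A) :=
  ⟨disjNP_conn, conn_con, up_con, disjCoNP_tfnp, tfnp_sat, con_conn_or_sat, sat_con_or_tfnp,
    up_disjNP_or_sat, int_disjNP_or_sat, int_con_or_disjCoNP⟩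

end Pool.Agent.Lib.MP_2c6a5a_lc.Cl
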