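import Pool.Agent.Lib.MP_2c6a5a_lc.U.PF

/-! A library of polynomial-time string functions and predicates. -/

namespace Pool.Agent.Lib.MP_2c6a5a_lc.U

open Pool.Agent.Lib.MP_8a52c3_lc.Orc Function List

variable {A : List Bool → Bool} {n : ℕ} {f g h p f₀ f₁ f₂ : St → L}

theorem PF.of_eq (hf : PF A n f) (e : ∀ σ, f σ = g σ) : PF A n g := funext e ▸ hf

theorem PF.upd (hf : PF A n f) (σ : St) (a : L) : f (update σ n a) = f σ :=
  hf.1 _ _ fun _ hi => update_of_ne hi.ne _ _

theorem PF.v0 : PF A (n + 1) fun σ => σ 0 := PF.var (Nat.succ_pos n)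
theorem PF.v1 : PF A (n + 2) fun σ => σ 1 := PF.var (by omega)

theorem PF.const (w : L) : PF A n fun _ => w := by
  induction w with
  | nil => exact PF.nil
  | cons b w ih => exact ih.cons b

theorem PF.revApp (hg : PF A n g) (hh : PF A n h) : PF A n fun σ => (g σ).reverse ++ h σ := by
  refine (PF.fold (s := fun b σ => b :: σ n) (fun b => PF.last.cons b) hh hg
    ⟨0, fun b σ => by simp⟩).of_eq fun σ => ?_
  simp only [U.fold, update_self]
  generalize h σ = a
  induction g σ generalizing a with
  | nil => rfl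
  | cons b w ih => simp [ih]

theorem PF.rev (hg : PF A n g) : PF A n fun σ => (g σ).reverse :=
  (hg.revApp PF.nil).of_eq fun _ => append_nil _

theorem PF.append (hg : PF A n g) (hh : PF A n h) : PF A n fun σ => g σ ++ h σ :=
  (hg.rev.revApp hh).of_eq fun _ => by rw [reverse_reverse]

/-- three-way branch on the first symbol -/
def cnd : L → L → L → L → L
  | [], a, _, _ => a
  | false :: _, _, b, _ => b
  | true :: _, _, _, c => c

theorem PF.cnd (hg : PF A n g) (h0 : PF A n f₀) (h1 : PF A n f₁) (h2 : PF A n f₂) :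
    PF A n fun σ => cnd (g σ) (f₀ σ) (f₁ σ) (f₂ σ) := by
  obtain ⟨j, hj⟩ := h1.len
  obtain ⟨k, hk⟩ := h2.len
  refine (PF.fold (s := fun b => if b = true then f₂ else f₁)
    (fun b => by cases b; exacts [h1.weak, h2.weak]) h0 hg.rev ⟨j + k, fun b σ => ?_⟩).of_eq
    fun σ => ?_
  · cases b
    · exact le_add_left ((hj σ).trans (Nat.pow_le_pow_right (by omega) (by omega)))
    · exact le_add_left ((hk σ).trans (Nat.pow_le_pow_right (by omega) (by omega)))
  · rcases g σ with _ | ⟨_ | _, w⟩ <;> simp [U.fold, U.cnd, h1.upd, h2.upd]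

theorem PF.iter {F : L → L → L} (hF : FP2 A F)
    (hb : ∃ q, Pol q ∧ Monotone q ∧ ∀ p a, (F p a).length ≤ a.length + q p.length)
    (hp : PF A n p) (hh : PF A n h) (hg : PF A n g) :
    PF A n fun σ => (F (p σ))^[(g σ).length] (h σ) := by
  obtain ⟨q, ⟨k, hk⟩, hm, hb⟩ := hb
  obtain ⟨j, hj⟩ := hp.len
  obtain ⟨c, hc⟩ := (((Pol.id.add (Pol.const 2)).pow j).add (Pol.const 2)).pow k
  refine (PF.fold (s := fun _ σ => F (p σ) (σ n)) (fun _ => PF.app2 hF hp.weak PF.last) hh hg
    ⟨c, fun _ σ => (hb _ _).trans (Nat.add_le_add_left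
      ((hm (hj σ)).trans ((hk _).trans (hc _))) _)⟩).of_eq fun σ => ?_
  simp only [U.fold, update_self, hp.upd, foldl_const]

theorem PF.iter1 {F : L → L} (hF : FP1 A F) (hb : ∀ a, (F a).length ≤ a.length + 1)
    (hh : PF A n h) (hg : PF A n g) : PF A n fun σ => F^[(g σ).length] (h σ) :=
  PF.iter (F := fun _ => F) (PF.fp2 (PF.app hF PF.v1))
    ⟨fun _ => 1, Pol.const 1, monotone_const, fun _ => hb⟩ PF.nil hh hg

theorem PF.drop (hg : PF A n g) (hh : PF A n h) : PF A n fun σ => (h σ).drop (g σ).length := by
  refine (PF.iter1 (F := List.tail) (PF.fp1 PF.v0.tail) (fun a => by simp; omega) hh hg).of_eq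
    fun σ => ?_
  generalize h σ = a
  induction (g σ).length generalizing a with
  | zero => rfl
  | succ m ih => rw [iterate_succ_apply, ih, drop_tail]

theorem PF.take (hg : PF A n g) (hh : PF A n h) : PF A n fun σ => (h σ).take (g σ).length := by
  refine ((hg.drop hh).drop hh.rev).rev.of_eq fun σ => ?_
  rw [drop_reverse, reverse_reverse, length_drop, take_eq_take_iff]
  omega

/-- unary numerals -/
def un (i : ℕ) : L := replicate i true

@[simp] theorem un_length (i : ℕ) : (un i).length = i := by simp [un]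

theorem un_inj {i j : ℕ} (h : un i = un j) : i = j := by simpa using congrArg length h

theorem PF.mul (hg : PF A n g) (hh : PF A n h) :
    PF A n fun σ => un ((g σ).length * (h σ).length) := by
  have h1 : PF A n fun σ => un (h σ).length := by
    refine (PF.iter1 (F := fun a => true :: a) (PF.fp1 (PF.v0.cons true)) (fun a => by simp)
      PF.nil hh).of_eq fun σ => ?_
    induction (h σ).length with
    | zero => rfl
    | succ m ih => rw [iterate_succ_apply', ih]; rfl
  refine (PF.iter (F := fun p a => p ++ a) (PF.fp2 (PF.v0.append PF.v1))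
    ⟨fun s => s, Pol.id, monotone_id, fun _ _ => by simp; omega⟩ h1 PF.nil hg).of_eq fun σ => ?_
  induction (g σ).length with
  | zero => simp [un]
  | succ m ih => rw [iterate_succ_apply', ih, Nat.succ_mul, add_comm, un, un, un, replicate_add]

theorem PF.pw (hg : PF A n g) (k : ℕ) : PF A n fun σ => un ((g σ).length ^ k) := by
  induction k with
  | zero => exact (PF.const [true]).of_eq fun _ => rfl
  | succ k ih => exact (ih.mul hg).of_eq fun _ => by rw [un_length, pow_succ]

/-- padding of length `(|x| + 2) ^ k` -/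
def pad (k : ℕ) (x : L) : L := un ((x.length + 2) ^ k)

@[simp] theorem pad_length (k : ℕ) (x : L) : (pad k x).length = (x.length + 2) ^ k := un_length _

theorem PF.pad (hg : PF A n g) (k : ℕ) : PF A n fun σ => pad k (g σ) :=
  ((hg.cons true).cons true).pw k

/-- pairing -/
def pr (x y : L) : L := un x.length ++ false :: (x ++ y)

@[simp] theorem pr_length (x y : L) : (pr x y).length = 2 * x.length + 1 + y.length := by
  simp [pr]; omega

theorem PF.pr (hg : PF A n g) (hh : PF A n h) : PF A n fun σ => pr (g σ) (h σ) :=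
  (((hg.pw 1).append ((hg.append hh).cons false))).of_eq fun _ => by rw [pow_one]; rfl

/-- remove the leading ones -/
def sk (z : L) : L := (fun a => cnd a a a a.tail)^[z.length] z

theorem sk1_le (a : L) : (cnd a a a a.tail).length ≤ a.length := by
  rcases a with _ | ⟨_ | _, w⟩ <;> simp [cnd]

theorem iter_le {F : L → L} (hF : ∀ a, (F a).length ≤ a.length) (m : ℕ) (z : L) :
    (F^[m] z).length ≤ z.length := by
  induction m with
  | zero => rfl
  | succ m ih => rw [iterate_succ_apply']; exact (hF _).trans ih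

theorem sk_pr (x y : L) : sk (pr x y) = false :: (x ++ y) := by
  have : ∀ i m, i ≤ m → (fun a => cnd a a a a.tail)^[m] (un i ++ false :: (x ++ y)) =
      false :: (x ++ y) := by
    intro i
    induction i with
    | zero => exact fun m _ => iterate_fixed rfl m
    | succ i ih =>
      intro m hm
      obtain ⟨m, rfl⟩ : ∃ j, m = j + 1 := ⟨m - 1, by omega⟩
      exact ih m (by omega)
  exact this _ _ (by simp; omega)

/-- first projection -/
def fst (z : L) : L := (sk z).tail.take (z.drop (sk z).length).length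

/-- second projection -/
def snd (z : L) : L := (sk z).tail.drop (z.drop (sk z).length).length

@[simp] theorem fst_pr (x y : L) : fst (pr x y) = x := by
  rw [fst, sk_pr, tail_cons, take_left' (by simp; omega)]

@[simp] theorem snd_pr (x y : L) : snd (pr x y) = y := by
  rw [snd, sk_pr, tail_cons, drop_left' (by simp; omega)]

@[simp] theorem fst_nil : fst [] = [] := rfl
@[simp] theorem snd_nil : snd [] = [] := rfl

theorem pr_inj {x y x' y' : L} : pr x y = pr x' y' ↔ x = x' ∧ y = y' :=
  ⟨fun h => ⟨by simpa using congrArg fst h, by simpa using congrArg snd h⟩,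
    fun h => by rw [h.1, h.2]⟩

theorem fst_le (z : L) : (fst z).length ≤ z.length := by
  have := iter_le sk1_le z.length z
  simp only [fst, sk, length_take, length_tail]
  omega

theorem snd_le (z : L) : (snd z).length ≤ z.length := by
  have := iter_le sk1_le z.length z
  simp only [snd, sk, length_drop, length_tail]
  omega

theorem PF.sk (hg : PF A n g) : PF A n fun σ => sk (g σ) :=
  PF.iter1 (F := fun a => U.cnd a a a a.tail) (PF.fp1 (PF.v0.cnd PF.v0 PF.v0 PF.v0.tail))
    (fun a => le_add_right (sk1_le a)) hg hg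

theorem PF.fst (hg : PF A n g) : PF A n fun σ => fst (g σ) := (hg.sk.drop hg).take hg.sk.tail
theorem PF.snd (hg : PF A n g) : PF A n fun σ => snd (g σ) := (hg.sk.drop hg).drop hg.sk.tail

attribute [irreducible] U.pr U.fst U.snd

/-- polynomial-time predicates -/
def PD (A : List Bool → Bool) (n : ℕ) (P : St → Prop) : Prop :=
  ∃ g, PF A n g ∧ ∀ σ, P σ ↔ g σ = [true]

variable {P Q : St → Prop}

theorem PD.ite [DecidablePred P] (hP : PD A n P) (hf : PF A n f) (hg : PF A n g) :
    PF A n fun σ => if P σ then f σ else g σ := by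
  obtain ⟨t, ht, e⟩ := hP
  refine (ht.cnd hg hg (ht.tail.cnd hf hg hg)).of_eq fun σ => ?_
  simp only [e]
  rcases t σ with _ | ⟨_ | _, _ | ⟨_ | _, w⟩⟩ <;> simp [U.cnd]

theorem PD.of_iff (hP : PD A n P) (e : ∀ σ, P σ ↔ Q σ) : PD A n Q :=
  let ⟨g, hg, h⟩ := hP
  ⟨g, hg, fun σ => (e σ).symm.trans (h σ)⟩

theorem PD.not (hP : PD A n P) : PD A n fun σ => ¬ P σ := by
  classical
  exact ⟨_, hP.ite PF.nil (PF.const [true]), fun σ => by by_cases c : P σ <;> simp [c]⟩

theorem PD.and (hP : PD A n P) (hQ : PD A n Q) : PD A n fun σ => P σ ∧ Q σ := by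
  classical
  obtain ⟨t, ht, e⟩ := hQ
  exact ⟨_, hP.ite ht PF.nil, fun σ => by by_cases c : P σ <;> simp [c, e]⟩

theorem PD.or (hP : PD A n P) (hQ : PD A n Q) : PD A n fun σ => P σ ∨ Q σ :=
  (hP.not.and hQ.not).not.of_iff fun _ => by tauto

theorem PD.imp (hP : PD A n P) (hQ : PD A n Q) : PD A n fun σ => P σ → Q σ :=
  (hP.not.or hQ).of_iff fun _ => by tauto

/-- one step of the comparison of two strings -/
def eqs (b : Bool) (a : L) : L :=
  cnd a [] [] (cnd a.tail [] (if b = true then [] else true :: a.tail.tail)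
    (if b = true then true :: a.tail.tail else []))

theorem PF.eq (hg : PF A n g) (hh : PF A n h) : PD A n fun σ => g σ = h σ := by
  refine ⟨_, PF.fold (s := fun b σ => eqs b (σ n)) (fun b => ?_) (hh.cons true) hg
    ⟨0, fun b σ => ?_⟩, fun σ => ?_⟩
  · cases b
    · exact PF.last.cnd PF.nil PF.nil (PF.last.tail.cnd PF.nil (PF.last.tail.tail.cons true) PF.nil)
    · exact PF.last.cnd PF.nil PF.nil (PF.last.tail.cnd PF.nil PF.nil (PF.last.tail.tail.cons true))
  · rcases σ n with _ | ⟨_ | _, _ | ⟨_ | _, w⟩⟩ <;> cases b <;> simp [eqs, U.cnd] <;> omega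
  · simp only [U.fold, update_self]
    have h0 : ∀ w : L, w.foldl (fun a b => eqs b a) [] = [] := fun w => by
      induction w with
      | nil => rfl
      | cons b w ih => exact ih
    generalize h σ = v
    induction g σ generalizing v with
    | nil => simp [eq_comm]
    | cons b w ih =>
      have e : eqs b (true :: v) = if v.head? = some b then true :: v.tail else [] := by
        rcases v with _ | ⟨_ | _, v⟩ <;> cases b <;> rfl
      rw [foldl_cons, e]
      rcases v with _ | ⟨_ | _, v⟩ <;> cases b <;> simp [h0, ← ih]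

theorem PF.le (hg : PF A n g) (hh : PF A n h) : PD A n fun σ => (g σ).length ≤ (h σ).length :=
  ((hh.drop hg).eq PF.nil).of_iff fun _ => drop_eq_nil_iff

theorem PD.ball {R : L → L → Prop} (hR : PD A 2 fun σ => R (σ 0) (σ 1)) (hp : PF A n p)
    (hg : PF A n g) : PD A n fun σ => ∀ j < (g σ).length, R (p σ) (un j) := by
  classical
  have h1 : FP2 A fun p a => if R p a.tail then a.take 1 ++ true :: a.tail else
      false :: true :: a.tail := by
    obtain ⟨t, ht, e⟩ := hR
    have h2 : FP2 A fun x y => t fun i => if i = 0 then x else if i = 1 then y else [] := ht.out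
    refine PF.fp2 (PD.ite (((PF.app2 h2 PF.v0 PF.v1.tail).eq (PF.const [true])).of_iff fun σ => ?_)
      (((PF.const [true]).take PF.v1).append (PF.v1.tail.cons true))
      ((PF.v1.tail.cons true).cons false))
    rw [← e]; simp
  refine (((PF.const [true]).take (PF.iter h1 ⟨fun _ => 2, Pol.const 2, monotone_const,
    fun p a => by split_ifs <;> simp <;> omega⟩ hp (PF.const [true]) hg)).eq
      (PF.const [true])).of_iff fun σ => ?_
  have : ∀ m, (fun a : L => if R (p σ) a.tail then a.take 1 ++ true :: a.tail else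
      false :: true :: a.tail)^[m] [true] = decide (∀ j < m, R (p σ) (un j)) :: un m := by
    intro m
    induction m with
    | zero => simp [un]
    | succ m ih =>
      rw [iterate_succ_apply', ih, tail_cons]
      simp only [Nat.forall_lt_succ_right]
      have e : un (m + 1) = true :: un m := rfl
      split_ifs with c <;> simp [c, e]
  simp [this]

end Pool.Agent.Lib.MP_2c6a5a_lc.U
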