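import Pool.Agent.Lib.MP_2c6a5a_lc.U.Run
import Pool.Agent.Lib.MP_8a52c3_lc.OrcProg

/-! Closure properties of polynomial time with an oracle. -/

namespace Pool.Agent.Lib.MP_2c6a5a_lc.U

open Pool.Agent.Lib.MP_8a52c3_lc.Orc Function

variable {A : List Bool → Bool}

/-- polynomially bounded functions -/
def Pol (p : ℕ → ℕ) : Prop := ∃ k, ∀ s, p s ≤ (s + 2) ^ k

theorem Pol.const (c : ℕ) : Pol fun _ => c :=
  ⟨c, fun s => Nat.lt_two_pow_self.le.trans (Nat.pow_le_pow_left (by omega) c)⟩

theorem Pol.id : Pol fun s => s := ⟨1, fun s => by simp⟩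

theorem Pol.mul {p q : ℕ → ℕ} (hp : Pol p) (hq : Pol q) : Pol fun s => p s * q s :=
  let ⟨a, ha⟩ := hp
  let ⟨b, hb⟩ := hq
  ⟨a + b, fun s => by rw [pow_add]; exact Nat.mul_le_mul (ha s) (hb s)⟩

theorem Pol.add {p q : ℕ → ℕ} (hp : Pol p) (hq : Pol q) : Pol fun s => p s + q s := by
  obtain ⟨a, ha⟩ := hp
  obtain ⟨b, hb⟩ := hq
  refine ⟨a + b + 1, fun s => ?_⟩
  have h1 : (s + 2) ^ a ≤ (s + 2) ^ (a + b) := Nat.pow_le_pow_right (by omega) (by omega)
  have h2 : (s + 2) ^ b ≤ (s + 2) ^ (a + b) := Nat.pow_le_pow_right (by omega) (by omega)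
  have := ha s
  have := hb s
  rw [pow_succ]
  nlinarith

theorem Pol.pow {p : ℕ → ℕ} (hp : Pol p) (k : ℕ) : Pol fun s => p s ^ k :=
  let ⟨a, ha⟩ := hp
  ⟨a * k, fun s => by rw [pow_mul]; exact Nat.pow_le_pow_left (ha s) k⟩

/-- clear a stack -/
def clr (i : ℕ) : List Instr := loop i [] []

theorem run_clr (i : ℕ) (σ : St) : Run A (clr i) σ (update σ i []) ((σ i).length * 3 + 1) := by
  obtain ⟨σ', h1, rfl⟩ := Run.loop (A := A) i (M := []) (N := []) (fun w τ => τ = update σ i w) 0
    (fun w τ h => by simp [h]) (fun b w τ h => ⟨_, by rw [ite_self]; exact Run.nil _, by simp [h]⟩)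
    (σ i) σ (by simp)
  exact h1

/-- move a stack on top of another one, reversing it -/
def mv (i j : ℕ) : List Instr := loop i [.push j false 1] [.push j true 1]

theorem run_mv {i j : ℕ} (h : i ≠ j) (σ : St) :
    Run A (mv i j) σ (update (update σ i []) j ((σ i).reverse ++ σ j)) ((σ i).length * 4 + 1) := by
  obtain ⟨σ', h1, v, h2, rfl⟩ := Run.loop (A := A) i (M := [.push j false 1])
    (N := [.push j true 1]) (fun w τ => ∃ v, v.reverse ++ w = σ i ∧
      τ = update (update σ i w) j (v ++ σ j)) 1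
    (fun w τ ⟨v, _, e⟩ => by simp [e, h])
    (fun b w τ ⟨v, h1, e⟩ => ⟨update (update τ i w) j (b :: update τ i w j),
      by cases b <;> exact Run.push _ j _, b :: v, by simpa using h1, by
      subst e
      funext l
      by_cases e1 : l = j
      · subst e1; simp [h.symm]
      · by_cases e2 : l = i
        · subst e2; simp [e1]
        · simp [e1, e2]⟩) (σ i) σ ⟨[], rfl, by simp⟩
  simpa [← h2, mv] using h1

/-- replace stack `i` by stack `j`, using the empty stack `k` -/
def ret (i j k : ℕ) : List Instr := seq (clr i) (seq (mv j k) (mv k i))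

theorem run_ret {i j k : ℕ} (h1 : i ≠ j) (h2 : j ≠ k) (h3 : i ≠ k) (σ : St) (hk : σ k = []) :
    Run A (ret i j k) σ (update (update σ j []) i (σ j))
      ((σ i).length * 3 + (σ j).length * 8 + 11) := by
  refine ((run_clr i σ).seq ((run_mv h2 _).seq (run_mv h3.symm _))).mono ?_ ?_
  · simp [h1.symm, h3.symm, hk]; omega
  · funext l
    by_cases e1 : l = i
    · subst e1; simp [h1, h3, h1.symm, h3.symm, hk]
    · by_cases e2 : l = k
      · subst e2; simp [e1, h2.symm, hk]
      · by_cases e3 : l = j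
        · subst e3; simp [e1, e2]
        · simp [e1, e2, e3]

/-- total length of the first `n` stacks -/
def sz (n : ℕ) (σ : St) : ℕ := ∑ i ∈ Finset.range n, (σ i).length

theorem le_sz {n i : ℕ} (h : i < n) (σ : St) : (σ i).length ≤ sz n σ :=
  Finset.single_le_sum (f := fun i => (σ i).length) (fun _ _ => Nat.zero_le _)
    (Finset.mem_range.2 h)

theorem sz_congr {n : ℕ} {σ τ : St} (h : ∀ i < n, σ i = τ i) : sz n σ = sz n τ :=
  Finset.sum_congr rfl fun i hi => by rw [h i (Finset.mem_range.1 hi)]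

theorem sz_update (n : ℕ) (σ : St) (w : L) : sz (n + 1) (update σ n w) = sz n σ + w.length := by
  rw [sz, Finset.sum_range_succ, update_self]
  congr 1
  exact sz_congr fun i hi => update_of_ne hi.ne _ _

/-- all stacks from `n` on are empty -/
def Cl (n : ℕ) (σ : St) : Prop := ∀ i, n ≤ i → σ i = []

theorem Cl.update {n : ℕ} {σ : St} (h : Cl n σ) (w : L) : Cl (n + 1) (update σ n w) :=
  fun i hi => by rw [update_of_ne (by omega), h i (by omega)]

theorem Cl.len {n : ℕ} {σ : St} (h : Cl n σ) (i : ℕ) : (σ i).length ≤ sz n σ := by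
  by_cases e : i < n
  · exact le_sz e σ
  · simp [h i (not_lt.1 e)]

/-- `f` depends on the first `n` stacks and is computed in polynomial time on stack `n` -/
def PF (A : List Bool → Bool) (n : ℕ) (f : St → L) : Prop :=
  (∀ σ τ, (∀ i < n, σ i = τ i) → f σ = f τ) ∧
    ∃ M k, ∀ σ, Cl n σ → Run A M σ (update σ n (f σ)) ((sz n σ + 2) ^ k)

variable {n : ℕ} {f g h : St → L}

theorem PF.intro (hd : ∀ σ τ, (∀ i < n, σ i = τ i) → f σ = f τ) (M : List Instr) {p : ℕ → ℕ}
    (hp : Pol p) (hr : ∀ σ, Cl n σ → Run A M σ (update σ n (f σ)) (p (sz n σ))) : PF A n f :=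
  let ⟨k, hk⟩ := hp
  ⟨hd, M, k, fun σ h => (hr σ h).mono (hk _) rfl⟩

theorem PF.len (hf : PF A n f) : ∃ k, ∀ σ, (f σ).length ≤ (sz n σ + 2) ^ k := by
  obtain ⟨hd, M, k, hr⟩ := hf
  obtain ⟨j, hj⟩ := Pol.id.add ((Pol.id.add (Pol.const 2)).pow k)
  refine ⟨j, fun σ => ?_⟩
  have e : ∀ i < n, σ i = (fun i => if i < n then σ i else []) i := fun i hi => by simp [hi]
  have hc : Cl n fun i => if i < n then σ i else [] := fun i hi => by simp [not_lt.2 hi]
  have := (hr _ hc).len hc.len n
  rw [update_self, ← hd _ _ e, ← sz_congr e] at this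
  exact this.trans (hj _)

theorem PF.nil : PF A n fun _ => [] :=
  PF.intro (fun _ _ _ => rfl) [] (Pol.const 0) fun σ h =>
    (Run.nil σ).mono le_rfl (by rw [← h n le_rfl, update_eq_self])

theorem PF.cons (b : Bool) (hg : PF A n g) : PF A n fun σ => b :: g σ := by
  obtain ⟨hd, M, k, hr⟩ := hg
  refine PF.intro (fun σ τ e => by rw [hd σ τ e]) (seq M [.push n b 1])
    (((Pol.id.add (Pol.const 2)).pow k).add (Pol.const 5)) fun σ h => ?_
  exact ((hr σ h).seq (Run.push _ n b)).mono (by omega) (by simp)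

theorem PF.tail (hg : PF A n g) : PF A n fun σ => (g σ).tail := by
  obtain ⟨hd, M, k, hr⟩ := hg
  refine PF.intro (fun σ τ e => by rw [hd σ τ e]) (seq M [.pop n 1 1 1])
    (((Pol.id.add (Pol.const 2)).pow k).add (Pol.const 5)) fun σ h => ?_
  have : Run A [.pop n 1 1 1] (update σ n (g σ)) (update σ n (g σ).tail) 1 := by
    refine ⟨1, Reach.one ?_, rfl⟩
    rcases hs : g σ with _ | ⟨_ | _, s⟩
    · exact step_pop_nil rfl _ (by simp)
    · rw [step_pop_false (s := s) rfl _ (by simp)]; simp
    · rw [step_pop_true (s := s) rfl _ (by simp)]; simp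
  exact ((hr σ h).seq this).mono (by omega) rfl

theorem PF.query (hg : PF A n g) : PF A n fun σ => [A (g σ)] := by
  obtain ⟨j, hj⟩ := hg.len
  obtain ⟨hd, M, k, hr⟩ := hg
  refine PF.intro (fun σ τ e => by rw [hd σ τ e])
    (seq M (ask n (seq (clr n) [.push n false 1]) (seq (clr n) [.push n true 1])))
    (((Pol.id.add (Pol.const 2)).pow k).add ((((Pol.id.add (Pol.const 2)).pow j).mul
      (Pol.const 3)).add (Pol.const 13))) fun σ h => ?_
  have h1 : ∀ b, Run A (seq (clr n) [.push n b 1]) (update σ n (g σ)) (update σ n [b])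
      ((sz n σ + 2) ^ j * 3 + 6) := fun b =>
    ((run_clr n _).seq (Run.push _ n b)).mono (by have := hj σ; simp; omega) (by simp)
  refine ((hr σ h).seq (Run.ask n (σ' := update σ n [A (g σ)]) (t := (sz n σ + 2) ^ j * 3 + 6)
    ?_)).mono (by omega) rfl
  rw [update_self]
  cases A (g σ) <;> exact h1 _

theorem PF.weak (hf : PF A n f) : PF A (n + 1) f := by
  obtain ⟨hd, M, k, hr⟩ := hf
  let ρ : ℕ → ℕ := fun i => if i < n then i else i + 1
  have hρ : Injective ρ := fun a b e => by simp only [ρ] at e; split_ifs at e <;> omega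
  refine PF.intro (fun σ τ e => hd σ τ fun i hi => e i (by omega)) (blk M 0 (M.length + 1) ρ)
    (((Pol.id.add (Pol.const 2)).pow k).add (Pol.const 2)) fun σ h => ?_
  have e : ∀ i < n, (σ ∘ ρ) i = σ i := fun i hi => by simp [ρ, hi]
  have h1 := (hr (σ ∘ ρ) fun i hi => h _ (by simp [ρ, not_lt.2 hi]; omega)).rename hρ σ
  have e1 : extend ρ (σ ∘ ρ) σ = σ := by
    funext j
    by_cases c : ∃ a, ρ a = j
    · obtain ⟨a, rfl⟩ := c; rw [hρ.extend_apply]; rfl
    · exact extend_apply' _ _ _ c
  rw [extend_update hρ, e1, hd _ _ e, sz_congr e] at h1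
  refine h1.mono ?_ (by simp [ρ])
  have : sz n σ ≤ sz (n + 1) σ := by rw [sz, sz, Finset.sum_range_succ]; omega
  have := Nat.pow_le_pow_left (show sz n σ + 2 ≤ sz (n + 1) σ + 2 by omega) k
  omega

theorem PF.last : PF A (n + 1) fun σ => σ n := by
  refine PF.intro (fun σ τ e => e n (by omega)) (seq (mv n (n + 2)) (loop (n + 2)
    (seq [.push n false 1] [.push (n + 1) false 1]) (seq [.push n true 1] [.push (n + 1) true 1])))
    ((Pol.id.mul (Pol.const 13)).add (Pol.const 6)) fun σ h => ?_
  obtain ⟨σ', h1, v, h2, rfl⟩ := Run.loop (A := A) (n + 2)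
    (M := seq [.push n false 1] [.push (n + 1) false 1])
    (N := seq [.push n true 1] [.push (n + 1) true 1]) (fun w τ => ∃ v, w.reverse ++ v = σ n ∧
      τ = update (update (update σ n v) (n + 1) v) (n + 2) w) 6
    (fun w τ ⟨v, _, e⟩ => by simp [e])
    (fun b w τ ⟨v, h1, e⟩ => ⟨update (update (update τ (n + 2) w) n (b :: update τ (n + 2) w n))
      (n + 1) (b :: update (update τ (n + 2) w) n (b :: update τ (n + 2) w n) (n + 1)),
      by cases b <;> exact (Run.push _ n _).seq (Run.push _ _ _),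
      b :: v, by simpa using h1, by
      subst e
      funext l
      by_cases e1 : l = n
      · simp [e1]
      · by_cases e2 : l = n + 1
        · subst e2; simp
        · by_cases e3 : l = n + 2
          · subst e3; simp
          · simp [e1, e2, e3]⟩) (σ n).reverse
    (update (update σ n []) (n + 2) ((σ n).reverse ++ σ (n + 2))) ⟨[], by simp, by
      rw [h (n + 2) (by omega), List.append_nil]
      congr 1
      rw [eq_comm, update_eq_iff]
      exact ⟨by simp [h (n + 1) le_rfl], fun _ _ => rfl⟩⟩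
  refine ((run_mv (by omega) σ).seq h1).mono ?_ ?_
  · have := le_sz (Nat.lt_add_one n) σ
    rw [List.length_reverse]
    omega
  · obtain rfl : v = σ n := by simpa using h2
    rw [update_eq_self, update_eq_iff]
    exact ⟨by simp [h (n + 2) (by omega)], fun _ _ => rfl⟩

theorem PF.var {i : ℕ} (hi : i < n) : PF A n fun σ => σ i := by
  induction n with
  | zero => omega
  | succ n ih =>
    by_cases e : i = n
    · exact e ▸ PF.last
    · exact (ih (by omega)).weak

/-- iteration of a step over a list, the accumulator being on stack `n` -/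
def fold (n : ℕ) (s : Bool → St → L) (σ : St) (a : L) (w : L) : L :=
  w.foldl (fun a b => s b (update σ n a)) a

theorem PF.fold {s : Bool → St → L} (hs : ∀ b, PF A (n + 1) (s b)) (hh : PF A n h) (hg : PF A n g)
    (hb : ∃ k, ∀ b σ, (s b σ).length ≤ (σ n).length + (sz n σ + 2) ^ k) :
    PF A n fun σ => fold n s σ (h σ) (g σ) := by
  obtain ⟨kb, hb⟩ := hb
  obtain ⟨jh, lh⟩ := hh.len
  obtain ⟨jg, lg⟩ := hg.len
  have hd : ∀ σ τ, (∀ i < n, σ i = τ i) → ∀ w a, U.fold n s σ a w = U.fold n s τ a w := by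
    intro σ τ e w
    induction w with
    | nil => exact fun _ => rfl
    | cons b w ih =>
      intro a
      have : s b (update σ n a) = s b (update τ n a) := (hs b).1 _ _ fun i hi => by
        by_cases c : i = n
        · subst c; simp
        · rw [update_of_ne c, update_of_ne c, e i (by omega)]
      simpa only [U.fold, List.foldl_cons, this] using ih _
  obtain ⟨dh, Mh, kh, rh⟩ := hh
  obtain ⟨-, Mg, kg, rg⟩ := hg.weak
  obtain ⟨-, M0, k0, r0⟩ := (hs false).weak
  obtain ⟨-, M1, k1, r1⟩ := (hs true).weak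
  let B : ℕ → ℕ := fun z => (z + 2) ^ jh + (z + 2) ^ jg * (z + 2) ^ kb
  let T : ℕ → ℕ := fun z => (z + B z + (z + 2) ^ jg + 2) ^ (k0 + k1) + B z * 11 + 15
  have p2 := Pol.id.add (Pol.const 2)
  have pB : Pol B := (p2.pow jh).add ((p2.pow jg).mul (p2.pow kb))
  have pT : Pol T := (((((Pol.id.add pB).add (p2.pow jg)).add (Pol.const 2)).pow _).add
    (pB.mul (Pol.const 11))).add (Pol.const 15)
  refine PF.intro (fun σ τ e => by rw [dh σ τ e, hg.1 σ τ e, hd σ τ e]) (seq Mh (seq Mg
    (loop (n + 1) (seq M0 (ret n (n + 2) (n + 3))) (seq M1 (ret n (n + 2) (n + 3))))))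
    ((((p2.pow kh).add (((Pol.id.add (p2.pow jh)).add (Pol.const 2)).pow kg)).add
      ((p2.pow jg).mul (pT.add (Pol.const 3)))).add (Pol.const 9)) fun σ hc => ?_
  have e0 : g (update σ n (h σ)) = g σ := hg.1 _ _ fun i hi => update_of_ne hi.ne _ _
  obtain ⟨σ', h1, a, h2, -, -, rfl⟩ := Run.loop (A := A) (n + 1)
    (M := seq M0 (ret n (n + 2) (n + 3))) (N := seq M1 (ret n (n + 2) (n + 3)))
    (fun w τ => ∃ a, U.fold n s σ a w = U.fold n s σ (h σ) (g σ) ∧ w.length ≤ (sz n σ + 2) ^ jg ∧
      a.length + w.length * (sz n σ + 2) ^ kb ≤ B (sz n σ) ∧ τ = update (update σ n a) (n + 1) w)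
    (T (sz n σ)) (fun w τ ⟨a, _, _, _, e⟩ => by simp [e])
    (fun b w τ ⟨a, h1, h2, h3, e⟩ => by
      subst e
      rw [update_idem]
      have c1 := (hc.update a).update w
      have e1 : s b (update (update σ n a) (n + 1) w) = s b (update σ n a) :=
        (hs b).1 _ _ fun i hi => update_of_ne hi.ne _ _
      have l1 := hb b (update σ n a)
      rw [update_self, sz_congr (τ := σ) fun i hi => update_of_ne hi.ne _ _] at l1
      rw [List.length_cons] at h2 h3
      rw [Nat.succ_mul] at h3
      have t1 : ∀ k ≤ k0 + k1, (sz (n + 1 + 1) (update (update σ n a) (n + 1) w) + 2) ^ k ≤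
          (sz n σ + B (sz n σ) + (sz n σ + 2) ^ jg + 2) ^ (k0 + k1) := fun k hk => by
        rw [sz_update, sz_update]
        exact (Nat.pow_le_pow_left (by omega) k).trans (Nat.pow_le_pow_right (by omega) hk)
      have r2 := run_ret (A := A) (i := n) (j := n + 2) (k := n + 3) (by omega) (by omega)
        (by omega) (update (update (update σ n a) (n + 1) w) (n + 2) (s b (update σ n a)))
        (c1.update _ _ le_rfl)
      refine ⟨update (update σ n (s b (update σ n a))) (n + 1) w, ?_, s b (update σ n a), h1,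
        by omega, by omega, rfl⟩
      have e2 : update (update (update (update (update σ n a) (n + 1) w) (n + 2)
          (s b (update σ n a))) (n + 2) []) n (s b (update σ n a)) =
          update (update σ n (s b (update σ n a))) (n + 1) w := by
        funext l
        by_cases e1 : l = n
        · subst e1; simp
        · by_cases e2 : l = n + 1
          · subst e2; simp
          · by_cases e3 : l = n + 2
            · subst e3; simp [hc (n + 2) (by omega)]
            · simp [e1, e2, e3]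
      rw [update_self, e2] at r2
      simp only [ne_eq, Nat.left_eq_add, OfNat.ofNat_ne_zero, not_false_eq_true, update_of_ne,
        one_ne_zero, update_self] at r2
      cases b
      · have r3 := r0 _ c1
        rw [e1] at r3
        exact (r3.seq r2).mono (by have := t1 k0 (by omega); simp only [T]; omega) rfl
      · have r3 := r1 _ c1
        rw [e1] at r3
        exact (r3.seq r2).mono (by have := t1 k1 (by omega); simp only [T]; omega) rfl)
    (g σ) _ ⟨h σ, rfl, lg σ, Nat.add_le_add (lh σ) (Nat.mul_le_mul_right _ (lg σ)), rfl⟩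
  have r2 := rg _ (hc.update (h σ))
  rw [e0, sz_update] at r2
  refine ((rh σ hc).seq (r2.seq h1)).mono ?_ ?_
  · have := Nat.pow_le_pow_left (show sz n σ + (h σ).length + 2 ≤
      sz n σ + (sz n σ + 2) ^ jh + 2 by have := lh σ; omega) kg
    have := Nat.mul_le_mul_right (T (sz n σ) + 3) (lg σ)
    omega
  · rw [← h2, update_eq_iff]
    exact ⟨by simp [hc (n + 1) (by omega)], fun _ _ => rfl⟩

theorem exists_clrs (n R : ℕ) : ∃ P, ∀ (σ : St) (B : ℕ), (∀ i, (σ i).length ≤ B) →
    Run A P σ (fun i => if n < i ∧ i ≤ n + R then [] else σ i) (R * (B * 3 + 5)) := by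
  induction R with
  | zero =>
    exact ⟨[], fun σ B _ => (Run.nil σ).mono (by simp) (funext fun i => by rw [if_neg (by omega)])⟩
  | succ R ih =>
    obtain ⟨P, hP⟩ := ih
    refine ⟨seq P (clr (n + R + 1)), fun σ B h => ((hP σ B h).seq (run_clr _ _)).mono ?_ ?_⟩
    · have := h (n + R + 1)
      rw [if_neg (by omega), Nat.succ_mul]
      omega
    · funext i
      by_cases e : i = n + R + 1
      · subst e; rw [update_self, if_pos (by omega)]
      · rw [update_of_ne e]
        exact if_congr (by omega) rfl rfl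

theorem run_of_outputs {M : List Instr} {x y z : L} {t : ℕ} (h : Outputs A M x y t z) :
    ∃ τ, Run A M (fun i => if i = 0 then x else if i = 1 then y else []) τ t ∧ τ 0 = z :=
  ⟨_, ⟨_, ⟨t, le_rfl, rfl⟩, h.1⟩, h.2⟩

theorem PF.imp {F : St → L} (hg : PF A n g) (hh : PF A n h) {M : List Instr} {k : ℕ}
    (hd : ∀ σ τ, (∀ i < n, σ i = τ i) → F σ = F τ)
    (hF : ∀ σ, Outputs A M (g σ) (h σ) (((g σ).length + (h σ).length) ^ k + k) (F σ)) :
    PF A n F := by
  obtain ⟨jh, lh⟩ := hh.len
  obtain ⟨jg, lg⟩ := hg.len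
  obtain ⟨R, hR⟩ := exists_reg (A := A) M
  obtain ⟨P, hP⟩ := exists_clrs (A := A) n (R + 1)
  obtain ⟨-, Mg, kg, rg⟩ := hg
  obtain ⟨-, Mh, kh, rh⟩ := hh.weak
  have hρ : Injective fun i => n + i := add_right_injective n
  let T : ℕ → ℕ := fun z => ((z + 2) ^ jg + (z + 2) ^ jh) ^ k + k + 2
  let B : ℕ → ℕ := fun z => z + (z + 2) ^ jg + (z + 2) ^ jh + T z
  have p2 := Pol.id.add (Pol.const 2)
  have pT : Pol T := ((((p2.pow jg).add (p2.pow jh)).pow k).add (Pol.const k)).add (Pol.const 2)
  have pB : Pol B := ((Pol.id.add (p2.pow jg)).add (p2.pow jh)).add pT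
  refine PF.intro hd (seq Mg (seq Mh (seq (blk M 0 (M.length + 1) fun i => n + i) P)))
    (((((p2.pow kg).add (((Pol.id.add (p2.pow jg)).add (Pol.const 2)).pow kh)).add pT).add
      ((Pol.const (R + 1)).mul ((pB.mul (Pol.const 3)).add (Pol.const 5)))).add (Pol.const 12))
    fun σ hc => ?_
  have r2 := rh _ (hc.update (g σ))
  rw [hh.1 _ σ fun i hi => update_of_ne hi.ne _ _, sz_update] at r2
  obtain ⟨τ, r3, e3⟩ := run_of_outputs (hF σ)
  have r4 := r3.rename hρ σ
  have e1 : extend (fun i => n + i) (fun i => if i = 0 then g σ else if i = 1 then h σ else []) σ =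
      update (update σ n (g σ)) (n + 1) (h σ) := by
    funext j
    by_cases c : ∃ a, n + a = j
    · obtain ⟨a, rfl⟩ := c
      rw [hρ.extend_apply]
      rcases a with _ | _ | a
      · simp
      · simp
      · rw [update_of_ne (by omega), update_of_ne (by omega), hc _ (by omega)]; simp
    · rw [extend_apply' _ _ _ c, update_of_ne fun e => c ⟨1, e.symm⟩,
        update_of_ne (a' := n) fun e => c ⟨0, e.symm⟩]
  rw [e1] at r4
  have t1 : ((g σ).length + (h σ).length) ^ k + k + 2 ≤ T (sz n σ) := by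
    have := Nat.pow_le_pow_left (Nat.add_le_add (lg σ) (lh σ)) k
    simp only [T]; omega
  have r5 := hP _ (B (sz n σ)) fun i => (r4.len ((hc.update _).update _).len i).trans (by
    rw [sz_update, sz_update]
    have := lg σ
    have := lh σ
    simp only [B]; omega)
  refine ((rg σ hc).seq (r2.seq (r4.seq r5))).mono ?_ ?_
  · have := Nat.pow_le_pow_left (show sz n σ + (g σ).length + 2 ≤
      sz n σ + (sz n σ + 2) ^ jg + 2 by have := lg σ; omega) kh
    omega
  · funext j
    by_cases c : ∃ a, n + a = j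
    · obtain ⟨a, rfl⟩ := c
      rw [hρ.extend_apply]
      rcases a with _ | a
      · simp [e3]
      · rw [update_of_ne (by omega), hc _ (by omega)]
        split_ifs with c
        · rfl
        · rw [hR _ _ _ r3 _ (by omega), if_neg (by omega), if_neg (by omega)]
    · have : j < n := by
        by_contra c'
        exact c ⟨j - n, by omega⟩
      rw [if_neg (by omega), extend_apply' _ _ _ c, update_of_ne this.ne]

theorem PF.app2 {F : L → L → L} (hF : FP2 A F) (hg : PF A n g) (hh : PF A n h) :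
    PF A n fun σ => F (g σ) (h σ) :=
  let ⟨_, _, H⟩ := hF
  hg.imp hh (fun σ τ e => by rw [hg.1 σ τ e, hh.1 σ τ e]) fun _ => H _ _

theorem PF.app {F : L → L} (hF : FP1 A F) (hg : PF A n g) : PF A n fun σ => F (g σ) :=
  let ⟨_, _, H⟩ := hF
  hg.imp PF.nil (fun σ τ e => by rw [hg.1 σ τ e]) fun _ => H _

theorem Pol.clock {p : ℕ → ℕ} (hp : Pol p) : ∃ k, ∀ s, p s ≤ s ^ k + k := by
  obtain ⟨a, ha⟩ := hp
  obtain ⟨k, hk⟩ := poly_bound (2 ^ a) a
  refine ⟨k, fun s => (ha s).trans (le_trans ?_ (hk s))⟩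
  rw [← mul_pow]
  exact Nat.pow_le_pow_left (by omega) a

theorem PF.out (hf : PF A 2 f) : ∃ M k, ∀ x y : L, Outputs A M x y ((x.length + y.length) ^ k + k)
    (f fun i => if i = 0 then x else if i = 1 then y else []) := by
  obtain ⟨j, lf⟩ := hf.len
  obtain ⟨-, M, k, r⟩ := hf
  have p2 := Pol.id.add (Pol.const 2)
  obtain ⟨c, hc⟩ := ((((p2.pow k).add (Pol.id.mul (Pol.const 3))).add
    ((p2.pow j).mul (Pol.const 8))).add (Pol.const 15)).clock
  refine ⟨seq M (ret 0 2 3), c, fun x y => ?_⟩
  have c1 : Cl 2 fun i => if i = 0 then x else if i = 1 then y else [] := fun i hi =>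
    (if_neg (by omega)).trans (if_neg (by omega))
  obtain ⟨pc, h1, h2⟩ := (r _ c1).seq (run_ret (i := 0) (j := 2) (k := 3) (by omega) (by omega)
    (by omega) _ (c1.update _ _ le_rfl))
  refine outputs_of_reach h1 h2 (by simp) (le_trans ?_ (hc _))
  have l1 := lf fun i => if i = 0 then x else if i = 1 then y else []
  have e : sz 2 (fun i => if i = 0 then x else if i = 1 then y else []) = x.length + y.length := by
    simp [sz, Finset.sum_range_succ]
  rw [e] at l1 ⊢
  simp only [update_self, ne_eq, OfNat.zero_ne_ofNat, not_false_eq_true, update_of_ne, if_true]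
  omega

theorem PF.fp2 {F : L → L → L} (hf : PF A 2 fun σ => F (σ 0) (σ 1)) : FP2 A F := hf.out

theorem PF.fp1 {F : L → L} (hf : PF A 1 fun σ => F (σ 0)) : FP1 A F :=
  let ⟨M, k, H⟩ := hf.weak.out
  ⟨M, k, fun x => H x []⟩

end Pool.Agent.Lib.MP_2c6a5a_lc.U
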