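import Pool.Agent.Lib.MP_8a52c3_lc.OrcRun

/-! Structured composition of oracle stack programs. -/

namespace Pool.Agent.Lib.MP_2c6a5a_lc.U

open Pool.Agent.Lib.MP_8a52c3_lc.Orc Function

abbrev L := List Bool
abbrev St := ℕ → List Bool

variable {A : List Bool → Bool}

/-- started on `σ`, the program halts on `σ'` within `t` steps -/
def Run (A : List Bool → Bool) (M : List Instr) (σ σ' : St) (t : ℕ) : Prop :=
  ∃ pc, Reach A M (0, σ) (pc, σ') t ∧ M.getD pc Instr.halt = Instr.halt

theorem Run.mono {M : List Instr} {σ σ' σ'' : St} {t t' : ℕ} (h : Run A M σ σ' t) (ht : t ≤ t')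
    (hs : σ' = σ'') : Run A M σ σ'' t' :=
  let ⟨pc, h1, h2⟩ := h
  ⟨pc, h1.cast ht hs, h2⟩

theorem Run.len {M : List Instr} {σ σ' : St} {t l : ℕ} (h : Run A M σ σ' t)
    (hl : ∀ i, (σ i).length ≤ l) (i : ℕ) : (σ' i).length ≤ l + t := by
  obtain ⟨pc, ⟨s, hs, h⟩, -⟩ := h
  have h2 := iter_len A M s (0, σ) l hl i
  rw [h] at h2
  exact h2.trans (by omega)

theorem exists_reg (M : List Instr) : ∃ R, ∀ σ σ' t, Run A M σ σ' t → ∀ i, R ≤ i → σ' i = σ i := by
  let r : Instr → ℕ := fun I => match I with
    | .push i _ _ => i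
    | .pop i _ _ _ => i
    | _ => 0
  have h0 : ∀ p, r (M.getD p Instr.halt) ≤ (M.map r).sum := fun p => by
    rw [List.getD_eq_getElem?_getD]
    rcases e : M[p]? with _ | I
    · exact Nat.zero_le _
    · exact List.single_le_sum (fun _ _ => Nat.zero_le _) _
        (List.mem_map_of_mem (List.mem_of_getElem? e))
  have h1 : ∀ (c : Cfg) i, (M.map r).sum + 1 ≤ i → (step A M c).2 i = c.2 i := by
    rintro ⟨p, τ⟩ i hi
    have h2 := h0 p
    cases hm : M.getD p Instr.halt with
    | halt => simp only [step, hm]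
    | query j a b => rw [step_query hm]
    | push j b t =>
      rw [hm] at h2
      rw [step_push hm]
      have h3 : j ≤ (M.map r).sum := h2
      exact update_of_ne (by omega) _ _
    | pop j a b c =>
      rw [hm] at h2
      have h3 : j ≤ (M.map r).sum := h2
      have : i ≠ j := by omega
      rcases hs : τ j with _ | ⟨_ | _, s⟩
      · rw [step_pop_nil hm _ hs]
      · rw [step_pop_false hm _ hs]; exact update_of_ne this _ _
      · rw [step_pop_true hm _ hs]; exact update_of_ne this _ _
  refine ⟨(M.map r).sum + 1, fun σ σ' t ⟨pc, ⟨s, _, h⟩, _⟩ i hi => ?_⟩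
  have h3 : ∀ (s : ℕ) (c : Cfg), ((step A M)^[s] c).2 i = c.2 i := by
    intro s
    induction s with
    | zero => exact fun _ => rfl
    | succ s ih => intro c; rw [iterate_succ_apply, ih, h1 c i hi]
  have := h3 s (0, σ)
  rwa [h] at this

/-- relocation of jump targets -/
def tgt (n l e t : ℕ) : ℕ := if t < n then l + t else e

/-- relocation of one instruction -/
def rel (n l e : ℕ) (ρ : ℕ → ℕ) : Instr → Instr
  | .push i b t => .push (ρ i) b (tgt n l e t)
  | .pop i a b c => .pop (ρ i) (tgt n l e a) (tgt n l e b) (tgt n l e c)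
  | .query i a b => .query (ρ i) (tgt n l e a) (tgt n l e b)
  | .halt => .query 0 e e

/-- the program `M` placed at address `l`, leaving to `e`, with its stacks renamed -/
def blk (M : List Instr) (l e : ℕ) (ρ : ℕ → ℕ) : List Instr :=
  .query 0 (tgt M.length (l + 1) e 0) (tgt M.length (l + 1) e 0) :: M.map (rel M.length (l + 1) e ρ)

@[simp] theorem blk_length (M : List Instr) (l e : ℕ) (ρ : ℕ → ℕ) :
    (blk M l e ρ).length = M.length + 1 := by simp [blk]

theorem extend_update {ρ : ℕ → ℕ} (hρ : Injective ρ) (τ σ : St) (i : ℕ) (w : L) :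
    extend ρ (update τ i w) σ = update (extend ρ τ σ) (ρ i) w := by
  funext j
  by_cases h : ∃ a, ρ a = j
  · obtain ⟨a, rfl⟩ := h
    by_cases e : a = i
    · subst e; simp [hρ.extend_apply]
    · rw [hρ.extend_apply, update_of_ne e, update_of_ne (hρ.ne e), hρ.extend_apply]
  · rw [extend_apply' _ _ _ h, update_of_ne fun e => h ⟨i, e.symm⟩, extend_apply' _ _ _ h]

theorem jmp {N : List Instr} {l e : ℕ} (h : N.getD l Instr.halt = .query 0 e e) (σ : St) :
    Reach A N (l, σ) (e, σ) 1 := Reach.one (by rw [step_query h, ite_self])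

theorem blk_reach {N M : List Instr} {l e : ℕ} {ρ : ℕ → ℕ} (hρ : Injective ρ)
    (h : Has N l (blk M l e ρ)) {τ τ' : St} {t : ℕ} (hr : Run A M τ τ' t) (σ : St) :
    Reach A N (l, extend ρ τ σ) (e, extend ρ τ' σ) (t + 2) := by
  have hi : ∀ p, p < M.length →
      N.getD (l + 1 + p) Instr.halt = rel M.length (l + 1) e ρ (M.getD p Instr.halt) := by
    intro p hp
    rw [h.tail p (by simpa)]
    simp [List.getD_eq_getElem?_getD, List.getElem?_eq_getElem hp]
  have ho : ∀ p, ¬ p < M.length → M.getD p Instr.halt = Instr.halt := fun p hp => by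
    simp [List.getD_eq_getElem?_getD, List.getElem?_eq_none (not_lt.1 hp)]
  have h1 : ∀ c : Cfg, M.getD c.1 Instr.halt ≠ Instr.halt →
      step A N (tgt M.length (l + 1) e c.1, extend ρ c.2 σ) =
        (tgt M.length (l + 1) e (step A M c).1, extend ρ (step A M c).2 σ) := by
    rintro ⟨p, τ⟩ hc
    have hp : p < M.length := by_contra fun hp => hc (ho p hp)
    have h2 := hi p hp
    simp only [tgt, hp, if_true]
    cases hm : M.getD p Instr.halt with
    | halt => exact absurd hm hc
    | push i b t =>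
      rw [hm] at h2
      rw [step_push h2, step_push hm, extend_update hρ, hρ.extend_apply]; rfl
    | query i a b =>
      rw [hm] at h2
      rw [step_query h2, step_query hm, hρ.extend_apply]
      split_ifs <;> simp_all [tgt]
    | pop i a b c =>
      rw [hm] at h2
      have e0 := hρ.extend_apply τ σ i
      rcases hs : τ i with _ | ⟨_ | _, s⟩
      · rw [step_pop_nil h2 _ (e0.trans hs), step_pop_nil hm _ hs]; rfl
      · rw [step_pop_false h2 _ (e0.trans hs), step_pop_false hm _ hs, extend_update hρ]; rfl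
      · rw [step_pop_true h2 _ (e0.trans hs), step_pop_true hm _ hs, extend_update hρ]; rfl
  have h2 : ∀ (s : ℕ) (c : Cfg), Reach A N (tgt M.length (l + 1) e c.1, extend ρ c.2 σ)
      (tgt M.length (l + 1) e ((step A M)^[s] c).1, extend ρ ((step A M)^[s] c).2 σ) s := by
    intro s
    induction s with
    | zero => exact fun c => Reach.refl _ _ _
    | succ s ih =>
      intro c
      by_cases hc : M.getD c.1 Instr.halt = Instr.halt
      · rw [halted_fix hc]; exact (Reach.refl _ _ _).mono (Nat.zero_le _)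
      · rw [iterate_succ_apply]
        exact ((Reach.one (h1 c hc)).trans (ih _)).mono (by omega)
  obtain ⟨pc, ⟨s, hs, hr⟩, hh⟩ := hr
  have h3 := h2 s (0, τ)
  rw [hr] at h3
  have h4 : Reach A N (tgt M.length (l + 1) e pc, extend ρ τ' σ) (e, extend ρ τ' σ) 1 := by
    by_cases hp : pc < M.length
    · have := hi pc hp
      rw [hh] at this
      simp only [tgt, hp, if_true]
      exact jmp this _
    · simp only [tgt, hp, if_false]
      exact (Reach.refl _ _ _).mono (Nat.zero_le _)
  exact (((jmp h.head _).trans h3).trans h4).mono (by omega)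

theorem blk_id {N M : List Instr} {l e : ℕ} (h : Has N l (blk M l e id)) {τ τ' : St} {t : ℕ}
    (hr : Run A M τ τ' t) : Reach A N (l, τ) (e, τ') (t + 2) := by
  simpa using blk_reach injective_id h hr τ

theorem halt_end (M : List Instr) {e : ℕ} (h : M.length ≤ e) :
    M.getD e Instr.halt = Instr.halt := by
  simp [List.getD_eq_getElem?_getD, List.getElem?_eq_none h]

theorem Run.rename {M : List Instr} {ρ : ℕ → ℕ} (hρ : Injective ρ) {τ τ' : St} {t : ℕ}
    (hr : Run A M τ τ' t) (σ : St) :
    Run A (blk M 0 (M.length + 1) ρ) (extend ρ τ σ) (extend ρ τ' σ) (t + 2) :=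
  ⟨_, blk_reach hρ (has_self _) hr σ, halt_end _ (by simp)⟩

/-- sequential composition -/
def seq (M N : List Instr) : List Instr :=
  blk M 0 (M.length + 1) id ++ blk N (M.length + 1) (M.length + N.length + 2) id

theorem Run.seq {M N : List Instr} {σ σ' σ'' : St} {t t' : ℕ} (h : Run A M σ σ' t)
    (h' : Run A N σ' σ'' t') : Run A (seq M N) σ σ'' (t + t' + 4) := by
  have h0 := has_self (U.seq M N)
  have h1 := blk_id h0.left h
  have h2 := h0.right
  rw [blk_length, zero_add] at h2
  exact ⟨_, (h1.trans (blk_id h2 h')).mono (by omega), halt_end _ (by simp [U.seq]; omega)⟩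

theorem Run.nil (σ : St) : Run A [] σ σ 0 := ⟨0, Reach.refl _ _ _, rfl⟩

theorem Run.push (σ : St) (i : ℕ) (b : Bool) :
    Run A [.push i b 1] σ (update σ i (b :: σ i)) 1 :=
  ⟨1, Reach.one (step_push rfl σ), rfl⟩

/-- a first instruction followed by two blocks with a common exit -/
def two (I : Instr) (e : ℕ) (M N : List Instr) : List Instr :=
  I :: (blk M 1 e id ++ blk N (M.length + 2) e id)

theorem two_reach (I : Instr) (e : ℕ) (M N : List Instr) (b : Bool) {τ τ' : St} {t : ℕ}
    (hr : Run A (if b = true then N else M) τ τ' t) :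
    Reach A (two I e M N) (if b = true then M.length + 2 else 1, τ) (e, τ') (t + 2) := by
  have h0 := (has_self (two I e M N)).tail
  cases b
  · exact blk_id h0.left hr
  · have h2 := h0.right
    rw [blk_length, show 0 + 1 + (M.length + 1) = M.length + 2 by omega] at h2
    exact blk_id h2 hr

/-- branch on the oracle answer -/
def ask (i : ℕ) (M N : List Instr) : List Instr :=
  two (.query i 1 (M.length + 2)) (M.length + N.length + 3) M N

theorem Run.ask (i : ℕ) {M N : List Instr} {σ σ' : St} {t : ℕ}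
    (h : Run A (if A (σ i) = true then N else M) σ σ' t) : Run A (ask i M N) σ σ' (t + 3) :=
  ⟨_, ((Reach.one (step_query (M := U.ask i M N) (l := 0) rfl σ)).trans
    (two_reach _ _ M N _ h)).mono (by omega), halt_end _ (by simp [U.ask, two]; omega)⟩

/-- pop stack `i` until it is empty, running `M` after a `false` and `N` after a `true` -/
def loop (i : ℕ) (M N : List Instr) : List Instr :=
  two (.pop i (M.length + N.length + 3) 1 (M.length + 2)) 0 M N

theorem Run.loop (i : ℕ) {M N : List Instr} (Q : L → St → Prop) (T : ℕ)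
    (hQ : ∀ w σ, Q w σ → σ i = w)
    (hs : ∀ b w σ, Q (b :: w) σ →
      ∃ σ', Run A (if b = true then N else M) (update σ i w) σ' T ∧ Q w σ') (w : L) :
    ∀ σ, Q w σ → ∃ σ', Run A (loop i M N) σ σ' (w.length * (T + 3) + 1) ∧ Q [] σ' := by
  induction w with
  | nil =>
    exact fun σ h => ⟨σ, ⟨_, (Reach.one (step_pop_nil (M := U.loop i M N) (l := 0) rfl σ
      (hQ _ _ h))).mono (by simp), halt_end _ (by simp [U.loop, two]; omega)⟩, h⟩
  | cons b w ih =>
    intro σ h
    obtain ⟨σ', h1, h2⟩ := hs b w σ h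
    obtain ⟨σ'', ⟨pc, h3, h4⟩, h5⟩ := ih σ' h2
    have h6 : Reach A (U.loop i M N) (0, σ)
        (if b = true then M.length + 2 else 1, update σ i w) 1 := by
      cases b
      · exact Reach.one (step_pop_false (M := U.loop i M N) (l := 0) rfl σ (hQ _ _ h))
      · exact Reach.one (step_pop_true (M := U.loop i M N) (l := 0) rfl σ (hQ _ _ h))
    refine ⟨σ'', ⟨pc, ((h6.trans (two_reach _ 0 M N b h1)).trans h3).mono ?_, h4⟩, h5⟩
    rw [List.length_cons, Nat.succ_mul]
    omega

end Pool.Agent.Lib.MP_2c6a5a_lc.U
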