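import Pool.Agent.Lib.MP_2c6a5a_lc.U.Fn

/-! A clocked universal function for polynomial time with an oracle. -/

namespace Pool.Agent.Lib.MP_2c6a5a_lc.U

open Pool.Agent.Lib.MP_8a52c3_lc.Orc Function List

variable {A : List Bool → Bool} {n : ℕ} {g h : St → L}

/-- entry number `|u|` of a nested pair -/
def nth (u z : L) : L := fst (snd^[u.length] z)

theorem nth_le (u z : L) : (nth u z).length ≤ z.length := (fst_le _).trans (iter_le snd_le _ _)

theorem PF.nth (hg : PF A n g) (hh : PF A n h) : PF A n fun σ => nth (g σ) (h σ) :=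
  (PF.iter1 (PF.fp1 PF.v0.snd) (fun a => le_add_right (snd_le a)) hh hg).fst

/-- code of an instruction -/
def encI : Instr → L
  | .push i b l => pr [false, b] (pr (un i) (pr (un l) []))
  | .pop i a b c => pr [true, false] (pr (un i) (pr (un a) (pr (un b) (un c))))
  | .query i a b => pr [true, true] (pr (un i) (pr (un a) (pr (un b) [])))
  | .halt => []

/-- code of a program -/
def encP (M : List Instr) : L := M.foldr (fun I z => pr (encI I) z) []

theorem nth_encP (M : List Instr) (p : ℕ) : nth (un p) (encP M) = encI (M.getD p .halt) := by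
  rw [nth, un_length]
  induction M generalizing p with
  | nil => rw [encP, foldr_nil, iterate_fixed snd_nil]; exact fst_nil
  | cons I M ih =>
    cases p with
    | zero => exact fst_pr _ _
    | succ p => rw [iterate_succ_apply, encP, foldr_cons, snd_pr]; exact ih p

/-- one step of the search of a key in an association list -/
def scan (u a : L) : L := if fst (fst a) = u then a else snd a

/-- the value of a key -/
def get (u z : L) : L := snd (fst ((scan u)^[z.length] z))

theorem PF.get (hg : PF A n g) (hh : PF A n h) : PF A n fun σ => get (g σ) (h σ) :=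
  (PF.iter (F := scan) (PF.fp2 ((PF.v1.fst.fst.eq PF.v0).ite PF.v1 PF.v1.snd))
    ⟨fun _ => 0, Pol.const 0, monotone_const, fun p a => by
      unfold scan; split_ifs; exacts [le_rfl, snd_le a]⟩ hg hh hh).fst.snd

/-- the string `z` represents the stacks -/
def Rep (z : L) (σ : St) : Prop :=
  ∀ i m, z.length ≤ m → snd (fst ((scan (un i))^[m] z)) = σ i

theorem rep_nil : Rep [] fun _ => [] := fun i m _ => by
  rw [iterate_fixed (by simp [scan])]; simp

theorem Rep.set {z : L} {σ : St} (h : Rep z σ) (i : ℕ) (v : L) :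
    Rep (pr (pr (un i) v) z) (update σ i v) := fun j m hm => by
  by_cases e : j = i
  · subst e
    rw [iterate_fixed (by simp [scan])]; simp
  · obtain ⟨m, rfl⟩ : ∃ k, m = k + 1 := ⟨m - 1, by simp at hm; omega⟩
    rw [iterate_succ_apply, scan, fst_pr, fst_pr, if_neg fun c => e (un_inj c).symm, snd_pr,
      update_of_ne e]
    exact h j m (by simp at hm; omega)

/-- execution of the instruction `I` with `s` on its stack -/
def ex (A : List Bool → Bool) (I s a : L) : L :=
  cnd (fst I) a (pr (fst (snd (snd I))) (pr (pr (fst (snd I)) ((fst I).tail ++ s)) (snd a)))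
    (cnd (fst I).tail a
      (cnd s (pr (fst (snd (snd I))) (snd a))
        (pr (fst (snd (snd (snd I)))) (pr (pr (fst (snd I)) s.tail) (snd a)))
        (pr (snd (snd (snd (snd I)))) (pr (pr (fst (snd I)) s.tail) (snd a))))
      (pr (cnd [A s] [] (fst (snd (snd I))) (fst (snd (snd (snd I))))) (snd a)))

theorem cnd_le {z a b c : L} {m : ℕ} (ha : a.length ≤ m) (hb : b.length ≤ m) (hc : c.length ≤ m) :
    (cnd z a b c).length ≤ m := by
  rcases z with _ | ⟨_ | _, _⟩ <;> assumption

theorem ex_le (I s a : L) : (ex A I s a).length ≤ a.length + 10 * I.length + 2 * s.length + 4 := by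
  have h1 := fst_le I
  have h2 := snd_le I
  have h3 := fst_le (snd I)
  have h4 := snd_le (snd I)
  have h5 := fst_le (snd (snd I))
  have h6 := snd_le (snd (snd I))
  have h7 := fst_le (snd (snd (snd I)))
  have h8 := snd_le (snd (snd (snd I)))
  have h9 := snd_le a
  have h10 : (cnd [A s] [] (fst (snd (snd I))) (fst (snd (snd (snd I))))).length ≤ I.length :=
    cnd_le (by simp) (by omega) (by omega)
  refine cnd_le (by omega) ?_ (cnd_le (by omega) (cnd_le ?_ ?_ ?_) ?_) <;>
    simp only [pr_length, length_append, length_tail] <;> omega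

/-- one simulated step; the parameter is the code together with a bound for the stacks -/
def us (A : List Bool → Bool) (p a : L) : L :=
  ex A (nth (fst a) (fst p)) ((get (fst (snd (nth (fst a) (fst p)))) (snd a)).take (snd p).length) a

theorem us_fp : FP2 A (us A) := by
  have hI : PF A 2 fun σ => nth (fst (σ 1)) (fst (σ 0)) := PF.v1.fst.nth PF.v0.fst
  have hs := PF.v0.snd.take (hI.snd.fst.get PF.v1.snd)
  have hz : PF A 2 fun σ => snd (σ 1) := PF.v1.snd
  have hp := (hI.snd.fst.pr hs.tail).pr hz
  exact PF.fp2 (hI.fst.cnd PF.v1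
    (hI.snd.snd.fst.pr ((hI.snd.fst.pr (hI.fst.tail.append hs)).pr hz))
    (hI.fst.tail.cnd PF.v1 (hs.cnd (hI.snd.snd.fst.pr hz) (hI.snd.snd.snd.fst.pr hp)
      (hI.snd.snd.snd.snd.pr hp))
      ((hs.query.cnd PF.nil hI.snd.snd.fst hI.snd.snd.snd.fst).pr hz)))

theorem us_step (M : List Instr) (B : L) (c : Cfg) (z : L) (hz : Rep z c.2)
    (hB : ∀ i, (c.2 i).length ≤ B.length) :
    ∃ z', us A (pr (encP M) B) (pr (un c.1) z) = pr (un (step A M c).1) z' ∧
      Rep z' (step A M c).2 := by
  obtain ⟨p, τ⟩ := c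
  have hg : ∀ i, (get (un i) z).take B.length = τ i := fun i => by
    rw [get, hz i _ le_rfl, take_of_length_le (hB i)]
  simp only [us, fst_pr, snd_pr, nth_encP]
  cases hm : M.getD p Instr.halt with
  | halt => exact ⟨z, by simp [step, -getD_eq_getElem?_getD, hm, ex, encI, cnd],
      by simp only [step, hm]; exact hz⟩
  | push i b l =>
    rw [step_push hm]
    exact ⟨_, by simp [ex, encI, cnd, hg], hz.set i (b :: τ i)⟩
  | query i a b =>
    rw [step_query hm]
    refine ⟨z, ?_, hz⟩
    simp only [ex, encI, fst_pr, snd_pr, hg, tail_cons]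
    cases A (τ i) <;> rfl
  | pop i a b c =>
    rcases hs : τ i with _ | ⟨_ | _, s⟩
    · rw [step_pop_nil hm _ hs]
      exact ⟨z, by simp [ex, encI, cnd, hg, hs], hz⟩
    · rw [step_pop_false hm _ hs]
      exact ⟨_, by simp [ex, encI, cnd, hg, hs], hz.set i s⟩
    · rw [step_pop_true hm _ hs]
      exact ⟨_, by simp [ex, encI, cnd, hg, hs], hz.set i s⟩

/-- the universal function: `fst p` is the code and `snd p` the clock -/
def univ (A : List Bool → Bool) (p x : L) : L :=
  get [] (snd ((us A (pr (fst p) (x ++ snd p)))^[(snd p).length] (pr [] (pr (pr [] x) []))))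

theorem univ_fp : FP2 A (univ A) := by
  refine PF.fp2 (PF.nil.get (PF.iter us_fp ⟨fun s => s * 12 + 4,
    (Pol.id.mul (Pol.const 12)).add (Pol.const 4), fun a b h => by simp only; omega,
    fun p a => (ex_le _ _ _).trans ?_⟩ (PF.v0.fst.pr (PF.v1.append PF.v0.snd))
    (PF.nil.pr ((PF.nil.pr PF.v1).pr PF.nil)) PF.v0.snd).snd)
  have h1 := nth_le (fst a) (fst p)
  have h2 := fst_le p
  have h3 := snd_le p
  rw [length_take]
  beta_reduce
  omega

theorem univ_run (M : List Instr) (t x : L) :
    univ A (pr (encP M) t) x = (run A M x [] t.length).2 0 := by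
  have : ∀ s ≤ t.length, ∃ z, (us A (pr (encP M) (x ++ t)))^[s] (pr [] (pr (pr [] x) [])) =
      pr (un (run A M x [] s).1) z ∧ Rep z (run A M x [] s).2 := by
    intro s
    induction s with
    | zero =>
      refine fun _ => ⟨pr (pr (un 0) x) [], rfl, ?_⟩
      convert rep_nil.set 0 x using 1
      funext i
      by_cases e : i = 0 <;> simp [run, e]
    | succ s ih =>
      intro hs
      obtain ⟨z, h1, h2⟩ := ih (by omega)
      rw [iterate_succ_apply', h1, run, run, iterate_succ_apply']
      refine us_step M _ _ z h2 fun i => (run_len A M x [] s i).trans ?_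
      simp; omega
  obtain ⟨z, h1, h2⟩ := this _ le_rfl
  rw [univ, fst_pr, snd_pr, h1, snd_pr]
  exact h2 0 _ le_rfl

theorem PF.univ (hg : PF A n g) (hh : PF A n h) : PF A n fun σ => univ A (g σ) (h σ) :=
  PF.app2 univ_fp hg hh

/-- every polynomial-time function has a code -/
theorem exists_code {F : L → L} (hF : FP1 A F) :
    ∃ c k, ∀ x t : L, (x.length + 2) ^ k ≤ t.length → univ A (pr c t) x = F x := by
  obtain ⟨M, k, H⟩ := hF
  obtain ⟨j, hj⟩ := (Pol.id.pow k).add (Pol.const k)
  refine ⟨encP M, j, fun x t ht => ?_⟩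
  rw [univ_run]
  exact (outputs_of_reach ⟨_, le_rfl, rfl⟩ (H x).1 (H x).2 ((hj _).trans ht)).2

end Pool.Agent.Lib.MP_2c6a5a_lc.U
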